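import Mathlib
import Pool.Agent.Y175.KL.Sheets
import Pool.Agent.Results.MP_05361d_gt.FiniteCovers

set_option autoImplicit false
open Set Topology

universe u v

namespace Pool.Agent.Results.MP_05361d_gt.CoveringClass

open Pool.Agent.Results.MP_05361d_gt.FiniteCovers Pool.Agent.Y175.KL

/-- every point has a neighbourhood on which `p` is injective -/
def LocInj {Z Y : Type v} [TopologicalSpace Z] (p : Z → Y) : Prop :=
  ∀ z, ∃ U ∈ 𝓝 z, Set.InjOn p U

/-- `X` has arbitrarily fine maps to `ℝ^m`: for every open cover `𝒰` there are a map `g` of `X`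
to `ℝ^m` and `δ > 0` such that all points of `X` with images at distance less than `δ` from `g x`
lie in one member of `𝒰`. -/
def FineMaps (m : ℕ) (X : Type u) [TopologicalSpace X] : Prop :=
  ∀ 𝒰 : Set (Set X), IsOpenCover 𝒰 → ∃ g : X → (Fin m → ℝ), Continuous g ∧
    ∃ δ > 0, ∀ x, ∃ U ∈ 𝒰, ∀ y, dist (g y) (g x) < δ → y ∈ U

theorem eq_of_exp_eq {a b : ℝ} (h : Circle.exp a = Circle.exp b) (h2 : |a - b| < 2 * Real.pi) :
    a = b := by
  obtain ⟨k, hk⟩ := Circle.exp_eq_exp.1 h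
  have hpi := Real.pi_pos
  have h3 : a - b = k * (2 * Real.pi) := by linarith
  rw [h3, abs_mul, abs_of_pos (by positivity : 0 < 2 * Real.pi)] at h2
  have h4 : |(k : ℝ)| < 1 := by
    by_contra hcon
    push Not at hcon
    nlinarith
  have h5 : |k| < 1 := by exact_mod_cast h4
  have h6 : k = 0 := Int.abs_lt_one_iff.1 h5
  rw [h6] at h3
  simp at h3
  linarith

theorem locInj_of_sheet {Z Y : Type v} [TopologicalSpace Z] [TopologicalSpace Y] {p : Z → Y}
    (hp : Sheet p) : LocInj p := by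
  obtain ⟨_, _, m, u, θ, h1, h2⟩ := hp
  intro z0
  refine ⟨{z | ∀ j, |θ j z - θ j z0| < Real.pi}, ?_, ?_⟩
  · have hop : IsOpen {z | ∀ j, |θ j z - θ j z0| < Real.pi} := by
      have : {z | ∀ j, |θ j z - θ j z0| < Real.pi} = ⋂ j, {z | |θ j z - θ j z0| < Real.pi} := by
        ext y; simp
      rw [this]
      exact isOpen_iInter_of_finite fun j =>
        isOpen_lt ((θ j).continuous.sub continuous_const).abs continuous_const
    refine hop.mem_nhds ?_
    intro j
    rw [sub_self, abs_zero]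
    exact Real.pi_pos
  · intro z hz w hw hzw
    refine h2 z w hzw fun j => ?_
    refine eq_of_exp_eq ?_ ?_
    · rw [h1, h1, hzw]
    · have h3 := hz j
      have h4 := hw j
      rw [abs_lt] at h3 h4 ⊢
      constructor <;> linarith

theorem homeo_of_sheet {Z Y : Type v} [TopologicalSpace Z] [TopologicalSpace Y]
    (hZ : IsContinuum Z) (hY : IsContinuum Y) (hYa : CircleAcyclic Y) {p : Z → Y}
    (hp : Sheet p) : IsHomeomorph p := by
  obtain ⟨hpc, hps, m, u, θ, h1, h2⟩ := hp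
  obtain ⟨hZc, hZk, hZ2⟩ := hZ
  obtain ⟨hYc, hYk, hY2⟩ := hY
  have hlift : ∀ j, ∃ l : Y → ℝ, Continuous l ∧ ∀ y, Circle.exp (l y) = u j y := by
    intro j
    have hre : Continuous fun y => ((u j y : Circle) : ℂ).re :=
      Complex.continuous_re.comp (continuous_subtype_val.comp (u j).continuous)
    have him : Continuous fun y => ((u j y : Circle) : ℂ).im :=
      Complex.continuous_im.comp (continuous_subtype_val.comp (u j).continuous)
    obtain ⟨l, hl, hl2⟩ := circle_lift hYa (fun y => ((u j y : Circle) : ℂ).re)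
      (fun y => ((u j y : Circle) : ℂ).im) hre him (by
        intro y
        by_contra hcon
        push Not at hcon
        have h3 : ((u j y : Circle) : ℂ) = 0 := Complex.ext hcon.1 hcon.2
        exact Circle.coe_ne_zero _ h3)
    refine ⟨l, hl, fun y => ?_⟩
    obtain ⟨R, hR, h3, h4⟩ := hl2 y
    have h5 : ((u j y : Circle) : ℂ) = (R : ℂ) * Complex.exp ((l y : ℂ) * Complex.I) := by
      apply Complex.ext
      · rw [Complex.re_ofReal_mul, Complex.exp_ofReal_mul_I_re]
        exact h3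
      · rw [Complex.im_ofReal_mul, Complex.exp_ofReal_mul_I_im]
        exact h4
    have h6 : R = 1 := by
      have h7 := congrArg norm h5
      rw [Circle.norm_coe, norm_mul, Complex.norm_exp_ofReal_mul_I, mul_one, Complex.norm_real,
        Real.norm_eq_abs, abs_of_pos hR] at h7
      exact h7.symm
    apply Subtype.ext
    show ((Circle.exp (l y) : Circle) : ℂ) = ((u j y : Circle) : ℂ)
    rw [Circle.coe_exp, h5, h6, Complex.ofReal_one, one_mul]
  choose l hl hl2 using hlift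
  have hconst : ∀ j z w, θ j z - l j (p z) = θ j w - l j (p w) := by
    intro j z w
    by_contra hne
    have hD : Continuous fun z => θ j z - l j (p z) :=
      (θ j).continuous.sub ((hl j).comp hpc)
    have hint : ∀ z, ∃ k : ℤ, θ j z - l j (p z) = k * (2 * Real.pi) := by
      intro z
      have h3 : Circle.exp (θ j z) = Circle.exp (l j (p z)) := by rw [h1, hl2]
      obtain ⟨k, hk⟩ := Circle.exp_eq_exp.1 h3
      exact ⟨k, by linarith⟩
    have hoc : (range fun z => θ j z - l j (p z)).OrdConnected :=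
      (isPreconnected_range hD).ordConnected
    have key : ∀ z w, θ j z - l j (p z) < θ j w - l j (p w) → False := by
      intro z w hlt
      obtain ⟨k, hk⟩ := hint z
      obtain ⟨k', hk'⟩ := hint w
      have hpi := Real.pi_pos
      have h4 : (k : ℝ) < k' := by
        rw [hk, hk'] at hlt
        exact lt_of_mul_lt_mul_right hlt (by positivity)
      have h5 : k + 1 ≤ k' := by
        have : k < k' := by exact_mod_cast h4
        omega
      have h6 : ((k : ℝ) + 1) ≤ k' := by exact_mod_cast h5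
      obtain ⟨x, hx⟩ := hoc.out (mem_range_self z) (mem_range_self w)
        (show (k * (2 * Real.pi) + Real.pi) ∈ Icc _ _ from
          ⟨by rw [hk]; linarith, by rw [hk']; nlinarith⟩)
      obtain ⟨r, hr⟩ := hint x
      have hx' : θ j x - l j (p x) = k * (2 * Real.pi) + Real.pi := hx
      rw [hr] at hx'
      have h7 : ((2 * r : ℤ) : ℝ) = ((2 * k + 1 : ℤ) : ℝ) := by
        push_cast
        have h8 : Real.pi * (2 * (r : ℝ)) = Real.pi * (2 * k + 1) := by linarith
        exact mul_left_cancel₀ hpi.ne' h8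
      have h9 : (2 * r : ℤ) = 2 * k + 1 := by exact_mod_cast h7
      omega
    rcases lt_or_gt_of_ne hne with h | h
    · exact key z w h
    · exact key w z h
  have hinj : Function.Injective p := by
    intro z w hzw
    refine h2 z w hzw fun j => ?_
    have h3 := hconst j z w
    rw [hzw] at h3
    linarith
  exact (isHomeomorph_iff_continuous_bijective).2 ⟨hpc, hinj, hps⟩

theorem fineMaps_of_dimLE {k : ℕ} {X : Type u} [TopologicalSpace X] (hX : IsContinuum X)
    (hd : ∀ (J : Type u) [Fintype J], Fintype.card J = k + 2 → ∀ C : J → Set X,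
      (∀ j, IsOpen (C j)) → (⋃ j, C j) = univ →
      ∃ V : J → Set X, (∀ j, IsOpen (V j)) ∧ (∀ j, V j ⊆ C j) ∧ (⋃ j, V j) = univ ∧
        (⋂ j, V j) = ∅) : FineMaps (2 * k + 1) X := by
  classical
  intro 𝒰 h𝒰
  obtain ⟨_, hXk, hX2⟩ := hX
  obtain ⟨T, hT𝒰, hTfin, hTcov⟩ : ∃ T ⊆ 𝒰, T.Finite ∧ ⋃₀ T = univ := by
    obtain ⟨T, hT, hTf, hTc⟩ := isCompact_univ.elim_finite_subcover_image (b := 𝒰) (c := id)
      h𝒰.1 (by rw [← h𝒰.2, sUnion_eq_biUnion]; rfl)
    exact ⟨T, hT, hTf, univ_subset_iff.1 (by rw [sUnion_eq_biUnion]; exact hTc)⟩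
  have : Fintype T := hTfin.fintype
  have hTo : ∀ i : T, IsOpen i.1 := fun i => h𝒰.1 _ (hT𝒰 i.2)
  have hTc : (⋃ i : T, i.1) = univ := by rw [← sUnion_eq_iUnion]; exact hTcov
  obtain ⟨U', hU'o, hU'U, hU'c, hU'I⟩ := exists_shrink hd (fun i : T => i.1) hTo hTc
    (Finset.powersetCard (k + 2) Finset.univ) (fun I hI => (Finset.mem_powersetCard.1 hI).2)
  obtain ⟨g, hg, δ, hδ, hgU⟩ := exists_map U' hU'o hU'c (k := k) (fun I hI => hU'I I
    (Finset.mem_powersetCard.2 ⟨Finset.subset_univ _, hI⟩))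
  refine ⟨g, hg, δ, hδ, fun x => ?_⟩
  obtain ⟨i, hi⟩ := hgU x
  exact ⟨i.1, hT𝒰 i.2, fun y hy => hU'U i (hi y hy)⟩

theorem circleAcyclic_of_simplyConnected (Y : Type v) [TopologicalSpace Y]
    [SimplyConnectedSpace Y] [LocallyPathConnectedSpace Y] : CircleAcyclic Y := by
  intro h
  obtain ⟨y0⟩ : Nonempty Y := inferInstance
  obtain ⟨F, hF, -⟩ := Circle.isCoveringMap_exp.existsUnique_continuousMap_lifts h
    (a₀ := y0) (e₀ := Complex.arg (h y0)) (Circle.exp_arg (h y0))
  have h1 : F.Nullhomotopic := by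
    have := (id_nullhomotopic ℝ).comp_left F
    simpa using this
  have h2 := h1.comp_right (⟨Circle.exp, Circle.exp.continuous⟩ : C(ℝ, Circle))
  have h3 : (⟨Circle.exp, Circle.exp.continuous⟩ : C(ℝ, Circle)).comp F = h := by
    ext1 y
    exact congrFun hF.2 y
  rw [h3] at h2
  exact h2

/-- (1) For every class `𝒦` of continua all `(2 ^ (m+1) - 1)`-`𝒦`-like continua with arbitrarily
fine maps to `ℝ^m` are `Hat 𝒦`-like. -/
def FineContinua : Prop :=
  ∀ (m : ℕ) (𝒦 : (Y : Type v) → TopologicalSpace Y → Prop),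
    (∀ (Y : Type v) (t : TopologicalSpace Y), 𝒦 Y t → @IsContinuum Y t) →
    ∀ (X : Type u) [TopologicalSpace X], IsContinuum X → FineMaps m X →
      NLike (2 ^ (m + 1) - 1) 𝒦 X → Like (Hat 𝒦) X

/-- (2) A continuum has arbitrarily fine maps to `ℝ^m` if it embeds in `ℝ^m`, or if `m = 2 k + 1`
and its dimension is at most `k`. -/
def FineExamples : Prop :=
  (∀ (m : ℕ) (X : Type u) [TopologicalSpace X], IsContinuum X →
    (∃ g : X → (Fin m → ℝ), Continuous g ∧ Function.Injective g) → FineMaps m X) ∧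
  (∀ (k : ℕ) (X : Type u) [TopologicalSpace X], IsContinuum X → DimLE k X →
    FineMaps (2 * k + 1) X)

/-- (3) Sheet maps are locally injective; those between continua are homeomorphisms if the image
is circle acyclic. -/
def SheetMaps : Prop :=
  ∀ (Z Y : Type v) [TopologicalSpace Z] [TopologicalSpace Y] (p : Z → Y), Sheet p →
    LocInj p ∧ (IsContinuum Z → IsContinuum Y → CircleAcyclic Y → IsHomeomorph p)

/-- (4) If all members of `𝒦` are circle acyclic continua, then `Hat 𝒦`-like spaces are `𝒦`-like.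
Contractible spaces and simply connected locally path connected spaces are circle acyclic. -/
def AcyclicClasses : Prop :=
  (∀ (𝒦 : (Y : Type v) → TopologicalSpace Y → Prop),
    (∀ (Y : Type v) (t : TopologicalSpace Y), 𝒦 Y t →
      @IsContinuum Y t ∧ @CircleAcyclic Y t) →
    ∀ (X : Type u) [TopologicalSpace X], Like (Hat 𝒦) X → Like 𝒦 X) ∧
  (∀ (Y : Type v) [TopologicalSpace Y], ContractibleSpace Y → CircleAcyclic Y) ∧
  (∀ (Y : Type v) [TopologicalSpace Y], SimplyConnectedSpace Y → LocallyPathConnectedSpace Y →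
    CircleAcyclic Y)

/-- **Classes with coverings, in Euclidean terms.** Let `Hat 𝒦` be the class of the continua with a
sheet map onto a member of `𝒦`.  For every class `𝒦` of continua, of any dimensions, and every
continuum `X` with arbitrarily fine maps to `ℝ^m`, if `X` is `(2 ^ (m+1) - 1)`-`𝒦`-like, then `X`
is `Hat 𝒦`-like, and `𝒦`-like if all members of `𝒦` are circle acyclic. -/
theorem result : FineContinua.{u, v} ∧ FineExamples.{u} ∧ SheetMaps.{v} ∧
    AcyclicClasses.{u, v} := by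
  have part2 : ∀ (m : ℕ) (𝒦 : (Y : Type v) → TopologicalSpace Y → Prop),
      (∀ (Y : Type v) (t : TopologicalSpace Y), 𝒦 Y t → @IsContinuum Y t) →
      ∀ (X : Type u) [TopologicalSpace X], IsContinuum X → FineMaps m X →
        NLike (2 ^ (m + 1) - 1) 𝒦 X → Like (Hat 𝒦) X := by
    intro m 𝒦 h𝒦 X _ hX hfine hn 𝒰 h𝒰
    obtain ⟨g, hg, δ, hδ, hgU⟩ := hfine 𝒰 h𝒰
    exact sheet_core h𝒦 hX 𝒰 g hg δ hδ hgU hn
  refine ⟨part2, ⟨?_, ?_⟩, ?_, ⟨?_, fun Y _ _ => circleAcyclic_of_contractible Y,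
    fun Y _ _ _ => circleAcyclic_of_simplyConnected Y⟩⟩
  · intro m X _ hX ⟨g, hg, hinj⟩ 𝒰 h𝒰
    obtain ⟨_, hXk, _⟩ := hX
    refine ⟨g, hg, ?_⟩
    obtain ⟨δ, hδ, hleb⟩ := lebesgue_number_lemma_of_metric (isCompact_range hg)
      (c := fun U : 𝒰 => (g '' (U.1)ᶜ)ᶜ)
      (fun U => ((((h𝒰.1 _ U.2).isClosed_compl.isCompact).image hg).isClosed).isOpen_compl) (by
        rintro _ ⟨x, rfl⟩
        have hx : x ∈ ⋃₀ 𝒰 := by rw [h𝒰.2]; exact mem_univ _
        obtain ⟨U, hU, hxU⟩ := hx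
        rw [mem_iUnion]
        refine ⟨⟨U, hU⟩, ?_⟩
        rintro ⟨y, hy, hyx⟩
        exact hy (hinj hyx ▸ hxU))
    refine ⟨δ, hδ, fun x => ?_⟩
    obtain ⟨U, hU⟩ := hleb (g x) (mem_range_self x)
    refine ⟨U.1, U.2, fun y hy => ?_⟩
    by_contra hcon
    exact hU (Metric.mem_ball.2 hy) ⟨y, hcon, rfl⟩
  · intro k X _ hX hdim
    refine fineMaps_of_dimLE hX ?_
    intro J _ hJ C hC hCc
    refine shrink_of_dimLE hdim (f := (id : X → X)) hJ C
      ⟨continuous_id, range C, ⟨?_, by rw [sUnion_range]; exact hCc⟩, ?_⟩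
    · rintro _ ⟨j, rfl⟩
      exact hC j
    · rintro _ ⟨V, hV, rfl⟩
      exact ⟨V, hV, subset_rfl⟩
  · intro Z Y _ _ p hp
    exact ⟨locInj_of_sheet hp, fun hZ hY hYa => homeo_of_sheet hZ hY hYa hp⟩
  · intro 𝒦 h𝒦 X _ hlike 𝒰 h𝒰
    obtain ⟨Z, tZ, ⟨hZ, Y, tY, hY, p, hp⟩, f, hfs, hfc, 𝒱, h𝒱, href⟩ := hlike 𝒰 h𝒰
    have hhom := homeo_of_sheet hZ (h𝒦 Y tY hY).1 (h𝒦 Y tY hY).2 hp
    refine ⟨Y, tY, hY, p ∘ f, hp.2.1.comp hfs, hp.1.comp hfc,
      (fun V => p '' V) '' 𝒱, ⟨?_, ?_⟩, ?_⟩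
    · rintro _ ⟨V, hV, rfl⟩
      exact hhom.isOpenMap V (h𝒱.1 V hV)
    · rw [eq_univ_iff_forall]
      intro y
      obtain ⟨q, rfl⟩ := hp.2.1 y
      have hq : q ∈ ⋃₀ 𝒱 := by rw [h𝒱.2]; exact mem_univ _
      obtain ⟨V, hV, hqV⟩ := hq
      exact ⟨p '' V, mem_image_of_mem _ hV, mem_image_of_mem _ hqV⟩
    · rintro _ ⟨_, ⟨V, hV, rfl⟩, rfl⟩
      obtain ⟨U, hU, hVU⟩ := href _ (mem_image_of_mem _ hV)
      refine ⟨U, hU, ?_⟩
      rintro x ⟨q, hqV, hq⟩
      have : q = f x := hhom.injective hq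
      subst this
      exact hVU hqV

end Pool.Agent.Results.MP_05361d_gt.CoveringClass
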