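import Pool.Agent.Y884.FC.Cyc

set_option autoImplicit false
open Set Topology

universe u v

namespace Pool.Agent.Results.MP_05361d_gt.EveryClass

/-! ### Definitions -/


/-- `𝒰` is an open cover of the space. -/
def IsOpenCover {X : Type u} [TopologicalSpace X] (𝒰 : Set (Set X)) : Prop :=
  (∀ U ∈ 𝒰, IsOpen U) ∧ ⋃₀ 𝒰 = univ

/-- `𝒱` refines `𝒰`: every member of `𝒱` lies in some member of `𝒰`. -/
def Refines {X : Type u} (𝒱 𝒰 : Set (Set X)) : Prop :=
  ∀ V ∈ 𝒱, ∃ U ∈ 𝒰, V ⊆ U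

/-- `f` is a `𝒰`-map: it is continuous, and `Y` has an open cover `𝒱` whose preimages refine `𝒰`. -/
def IsUMap {X : Type u} {Y : Type v} [TopologicalSpace X] [TopologicalSpace Y]
    (𝒰 : Set (Set X)) (f : X → Y) : Prop :=
  Continuous f ∧ ∃ 𝒱 : Set (Set Y), IsOpenCover 𝒱 ∧ Refines ((fun V => f ⁻¹' V) '' 𝒱) 𝒰

/-- A continuum: a (nonempty) connected compact Hausdorff space. -/
def IsContinuum (X : Type u) [TopologicalSpace X] : Prop :=
  ConnectedSpace X ∧ CompactSpace X ∧ T2Space X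

/-- The order of the cover `𝒰` is at most `m`: every subfamily with a common point has at most
`m` members. -/
def OrderLE {X : Type u} (m : ℕ) (𝒰 : Set (Set X)) : Prop :=
  ∀ F ⊆ 𝒰, (⋂₀ F).Nonempty → F.encard ≤ m

/-- Covering dimension at most `m`. -/
def DimLE (m : ℕ) (X : Type u) [TopologicalSpace X] : Prop :=
  ∀ 𝒰 : Set (Set X), IsOpenCover 𝒰 →
    ∃ 𝒱 : Set (Set X), IsOpenCover 𝒱 ∧ Refines 𝒱 𝒰 ∧ OrderLE (m + 1) 𝒱

/-- The covering dimension is exactly `k` (for a nonempty space). -/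
def HasDim (k : ℕ) (X : Type u) [TopologicalSpace X] : Prop :=
  DimLE k X ∧ ∀ m < k, ¬ DimLE m X

/-- `X` is `𝒦`-like: for every open cover `𝒰` of `X` there is a `𝒰`-map of `X` onto a member
of `𝒦`. -/
def Like (𝒦 : (Y : Type v) → TopologicalSpace Y → Prop) (X : Type u) [TopologicalSpace X] : Prop :=
  ∀ 𝒰 : Set (Set X), IsOpenCover 𝒰 →
    ∃ (Y : Type v) (_ : TopologicalSpace Y), 𝒦 Y ‹_› ∧
      ∃ f : X → Y, Function.Surjective f ∧ IsUMap 𝒰 f

/-- `X` is `n`-`𝒦`-like: for every open cover `𝒰` of `X` with at most `n` members there is a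
`𝒰`-map of `X` onto a member of `𝒦`. -/
def NLike (n : ℕ) (𝒦 : (Y : Type v) → TopologicalSpace Y → Prop) (X : Type u)
    [TopologicalSpace X] : Prop :=
  ∀ 𝒰 : Set (Set X), IsOpenCover 𝒰 → 𝒰.encard ≤ n →
    ∃ (Y : Type v) (_ : TopologicalSpace Y), 𝒦 Y ‹_› ∧
      ∃ f : X → Y, Function.Surjective f ∧ IsUMap 𝒰 f

/-- `f` is locally injective: every point has an open neighbourhood on which `f` is injective. -/
def LocInj {Z : Type u} {Y : Type v} [TopologicalSpace Z] (f : Z → Y) : Prop :=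
  ∀ a : Z, ∃ W : Set Z, IsOpen W ∧ a ∈ W ∧ InjOn f W

/-- The class of all continua that admit a locally injective continuous map onto a member
of `𝒦`. -/
def Hat (𝒦 : (Y : Type v) → TopologicalSpace Y → Prop) (Z : Type v) (_ : TopologicalSpace Z) :
    Prop :=
  IsContinuum Z ∧ ∃ (Y : Type v) (_ : TopologicalSpace Y), 𝒦 Y ‹_› ∧
    ∃ p : Z → Y, Continuous p ∧ Function.Surjective p ∧ LocInj p

/-- Every continuous map of `Y` to the circle is null-homotopic. -/
def CircleTrivial (Y : Type v) [TopologicalSpace Y] : Prop :=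
  ∀ h : C(Y, Circle), h.Nullhomotopic

/-- The class of all subcontinua `Z` of `ℤ ^ m`-coverings of members `Y` of `𝒦` that project
onto `Y`. The coverings are the pull-backs of the universal covering
`exp ^ m : ℂ ^ m → (ℂ ∖ {0}) ^ m` under continuous maps `z : Y → (ℂ ∖ {0}) ^ m`: the points of `Z`
are determined by their projection `p b` and by the `m` coordinates `l j b ∈ ℂ`, where
`exp (l j b) = z j (p b)`. -/
def CovHat (m : ℕ) (𝒦 : (Y : Type v) → TopologicalSpace Y → Prop) (Z : Type v)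
    (_ : TopologicalSpace Z) : Prop :=
  IsContinuum Z ∧ ∃ (Y : Type v) (_ : TopologicalSpace Y), 𝒦 Y ‹_› ∧
    ∃ p : Z → Y, Continuous p ∧ Function.Surjective p ∧
      ∃ z : Fin m → Y → ℂ, (∀ j, Continuous (z j)) ∧ (∀ j y, z j y ≠ 0) ∧
        ∃ l : Fin m → Z → ℂ, (∀ j, Continuous (l j)) ∧ (∀ j b, Complex.exp (l j b) = z j (p b)) ∧
          Function.Injective fun b : Z => (p b, fun j => l j b)

/-! ### Shrinking covers -/

section Shrink

variable {X : Type u} [TopologicalSpace X] {Y : Type v} [TopologicalSpace Y]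

theorem shrink_of_dimLE {k : ℕ} (hY : DimLE k Y) {f : X → Y} {J : Type u} [Fintype J]
    (hJ : Fintype.card J = k + 2) (C : J → Set X) (hf : IsUMap (range C) f) :
    ∃ V : J → Set X, (∀ j, IsOpen (V j)) ∧ (∀ j, V j ⊆ C j) ∧ (⋃ j, V j) = univ ∧
      (⋂ j, V j) = ∅ := by
  classical
  obtain ⟨hfc, 𝒱, h𝒱, href⟩ := hf
  obtain ⟨𝒲, h𝒲, hWV, hord⟩ := hY 𝒱 h𝒱
  have : Nonempty J := Fintype.card_pos_iff.1 (by omega)
  have h1 : ∀ W ∈ 𝒲, ∃ j, f ⁻¹' W ⊆ C j := by
    intro W hW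
    obtain ⟨V, hV, hWV'⟩ := hWV W hW
    obtain ⟨U, ⟨j, rfl⟩, hVU⟩ := href _ (mem_image_of_mem _ hV)
    exact ⟨j, (preimage_mono hWV').trans hVU⟩
  choose! φ hφ using h1
  refine ⟨fun j => ⋃₀ {A | ∃ W ∈ 𝒲, φ W = j ∧ A = f ⁻¹' W}, ?_, ?_, ?_, ?_⟩
  · intro j
    apply isOpen_sUnion
    rintro A ⟨W, hW, _, rfl⟩
    exact (h𝒲.1 W hW).preimage hfc
  · intro j
    apply sUnion_subset
    rintro A ⟨W, hW, h2, rfl⟩
    rw [← h2]
    exact hφ W hW
  · rw [eq_univ_iff_forall]
    intro x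
    have : f x ∈ ⋃₀ 𝒲 := by rw [h𝒲.2]; exact mem_univ _
    obtain ⟨W, hW, hx⟩ := this
    rw [mem_iUnion]
    exact ⟨φ W, f ⁻¹' W, ⟨W, hW, rfl, rfl⟩, hx⟩
  · rw [eq_empty_iff_forall_notMem]
    intro x hx
    rw [mem_iInter] at hx
    have h2 : ∀ j, ∃ W ∈ 𝒲, φ W = j ∧ f x ∈ W := by
      intro j
      obtain ⟨A, ⟨W, hW, hj, rfl⟩, hA⟩ := hx j
      exact ⟨W, hW, hj, hA⟩
    choose W hW hWj hxW using h2
    have hinj : Function.Injective W := by
      intro a b hab
      rw [← hWj a, ← hWj b, hab]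
    have h3 := hord (range W) (by rintro _ ⟨j, rfl⟩; exact hW j) ⟨f x, by
      rintro _ ⟨j, rfl⟩; exact hxW j⟩
    have h3' := hinj.encard_range.trans h3
    rw [ENat.card_eq_coe_fintype_card, hJ] at h3'
    have h4 : k + 2 ≤ k + 1 := by exact_mod_cast h3'
    omega

theorem exists_shrink {k : ℕ}
    (hX : ∀ (J : Type u) [Fintype J], Fintype.card J = k + 2 → ∀ C : J → Set X,
      (∀ j, IsOpen (C j)) → (⋃ j, C j) = univ →
      ∃ V : J → Set X, (∀ j, IsOpen (V j)) ∧ (∀ j, V j ⊆ C j) ∧ (⋃ j, V j) = univ ∧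
        (⋂ j, V j) = ∅)
    {ι : Type u} (U : ι → Set X) (hU : ∀ i, IsOpen (U i)) (hcov : (⋃ i, U i) = univ)
    (𝓘 : Finset (Finset ι)) (h𝓘 : ∀ I ∈ 𝓘, I.card = k + 2) :
    ∃ U' : ι → Set X, (∀ i, IsOpen (U' i)) ∧ (∀ i, U' i ⊆ U i) ∧ (⋃ i, U' i) = univ ∧
      ∀ I ∈ 𝓘, (⋂ i ∈ I, U' i) = ∅ := by
  classical
  induction 𝓘 using Finset.induction_on with
  | empty => exact ⟨U, hU, fun i => Subset.rfl, hcov, fun I hI => absurd hI (Finset.notMem_empty _)⟩
  | insert I 𝓙 hIJ ih =>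
    obtain ⟨U', hU'o, hU'U, hU'c, hU'I⟩ := ih (fun I' hI' => h𝓘 I' (Finset.mem_insert_of_mem hI'))
    have hIcard := h𝓘 I (Finset.mem_insert_self _ _)
    obtain ⟨i0, hi0⟩ : I.Nonempty := Finset.card_pos.1 (by omega)
    obtain ⟨V, hVo, hVC, hVc, hVe⟩ := hX {i // i ∈ I} (by rw [Fintype.card_coe]; exact hIcard)
      (fun j => if j.1 = i0 then U' i0 ∪ ⋃ i ∈ {i | i ∉ I}, U' i else U' j.1)
      (by
        intro j
        split_ifs
        · exact (hU'o _).union (isOpen_biUnion fun i _ => hU'o i)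
        · exact hU'o _)
      (by
        rw [eq_univ_iff_forall]
        intro x
        have : x ∈ ⋃ i, U' i := by rw [hU'c]; exact mem_univ _
        obtain ⟨i, hi⟩ := mem_iUnion.1 this
        rw [mem_iUnion]
        by_cases hiI : i ∈ I
        · refine ⟨⟨i, hiI⟩, ?_⟩
          dsimp only
          split_ifs with h
          · left; rw [← h]; exact hi
          · exact hi
        · refine ⟨⟨i0, hi0⟩, ?_⟩
          dsimp only
          rw [if_pos rfl]
          right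
          exact mem_biUnion (show i ∈ {i | i ∉ I} from hiI) hi)
    let σ : ι → {i // i ∈ I} := fun i => if h : i ∈ I then ⟨i, h⟩ else ⟨i0, hi0⟩
    refine ⟨fun i => U' i ∩ V (σ i), fun i => (hU'o i).inter (hVo _),
      fun i => inter_subset_left.trans (hU'U i), ?_, ?_⟩
    · rw [eq_univ_iff_forall]
      intro x
      have : x ∈ ⋃ j, V j := by rw [hVc]; exact mem_univ _
      obtain ⟨j, hj⟩ := mem_iUnion.1 this
      rw [mem_iUnion]
      have hxC := hVC j hj
      have hσ : σ j.1 = j := by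
        simp only [σ, dif_pos j.2]
      split_ifs at hxC with h
      · rcases hxC with h1 | h1
        · refine ⟨j.1, ?_, ?_⟩
          · rw [h]; exact h1
          · rw [hσ]; exact hj
        · obtain ⟨i, hi, hxi⟩ := mem_iUnion₂.1 h1
          refine ⟨i, hxi, ?_⟩
          have : σ i = j := by
            simp only [σ, dif_neg (show i ∉ I from hi)]
            exact Subtype.ext h.symm
          rw [this]; exact hj
      · refine ⟨j.1, hxC, ?_⟩
        rw [hσ]; exact hj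
    · intro I' hI'
      rcases Finset.mem_insert.1 hI' with h | h
      · subst h
        rw [eq_empty_iff_forall_notMem]
        intro x hx
        have : x ∈ ⋂ j, V j := by
          rw [mem_iInter]
          intro j
          have h1 : x ∈ U' j.1 ∩ V (σ j.1) := mem_iInter₂.1 hx j.1 j.2
          have hσ : σ j.1 = j := by
            simp only [σ, dif_pos j.2]
          rw [hσ] at h1
          exact h1.2
        rw [hVe] at this
        exact this
      · rw [eq_empty_iff_forall_notMem]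
        intro x hx
        have : x ∈ ⋂ i ∈ I', U' i := by
          rw [mem_iInter₂]
          intro i hi
          exact (mem_iInter₂.1 hx i hi).1
        rw [hU'I I' h] at this
        exact this

end Shrink

/-! ### Maps to Euclidean space -/

section Embed

variable {X : Type u} [TopologicalSpace X] [CompactSpace X] [T2Space X]

theorem vandermonde_finset {ι : Type u} (t : ι → ℝ) (ht : Function.Injective t)
    (c : ι → ℝ) (I : Finset ι) (N : ℕ) (hI : I.card ≤ N)
    (h : ∀ j < N, ∑ i ∈ I, c i * t i ^ j = 0) : ∀ i ∈ I, c i = 0 := by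
  classical
  let e := I.equivFin.symm
  have h1 : (fun a : Fin I.card => c (e a).1) = 0 := by
    refine Matrix.eq_zero_of_forall_pow_sum_mul_pow_eq_zero
      (f := fun a : Fin I.card => t (e a).1) ?_ ?_
    · intro a b hab
      exact e.injective (Subtype.ext (ht hab))
    · intro j
      have h2 := h j (lt_of_lt_of_le j.2 hI)
      rw [← h2, ← Finset.sum_coe_sort I]
      exact Equiv.sum_comp e (fun i : {i // i ∈ I} => c i.1 * t i.1 ^ (j : ℕ))
  intro i hi
  have h2 := congrFun h1 (e.symm ⟨i, hi⟩)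
  simpa using h2

theorem exists_map {k : ℕ} {ι : Type u} [Fintype ι] (U : ι → Set X) (hU : ∀ i, IsOpen (U i))
    (hcov : (⋃ i, U i) = univ)
    (hord : ∀ I : Finset ι, I.card = k + 2 → (⋂ i ∈ I, U i) = ∅) :
    ∃ g : X → (Fin (2 * k + 1) → ℝ), Continuous g ∧
      ∃ δ > 0, ∀ x, ∃ i, ∀ y, dist (g y) (g x) < δ → y ∈ U i := by
  classical
  obtain ⟨φ, hφ⟩ := PartitionOfUnity.exists_isSubordinate (isClosed_univ (X := X)) U hU
    (by rw [hcov])
  have hsupp : ∀ i x, φ i x ≠ 0 → x ∈ U i := by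
    intro i x hx
    exact hφ i (subset_tsupport _ hx)
  have hsum : ∀ x, ∑ i, φ i x = 1 := by
    intro x
    rw [← finsum_eq_sum_of_fintype]
    exact φ.sum_eq_one (mem_univ x)
  let t : ι → ℝ := fun i => ((Fintype.equivFin ι i : ℕ) : ℝ)
  have ht : Function.Injective t := by
    intro a b hab
    have h1 : ((Fintype.equivFin ι a : ℕ)) = (Fintype.equivFin ι b : ℕ) :=
      Nat.cast_injective (R := ℝ) hab
    exact (Fintype.equivFin ι).injective (Fin.ext h1)
  let g : X → (Fin (2 * k + 1) → ℝ) := fun x j => ∑ i, φ i x * t i ^ ((j : ℕ) + 1)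
  have hg : Continuous g := by
    refine continuous_pi fun j => ?_
    refine continuous_finsetSum _ fun i _ => ?_
    exact (φ i).continuous.mul continuous_const
  have hcard : ∀ x, (Finset.univ.filter fun i => φ i x ≠ 0).card ≤ k + 1 := by
    intro x
    by_contra hcon
    push Not at hcon
    obtain ⟨I, hI, hIc⟩ := Finset.exists_subset_card_eq (show k + 2 ≤ _ from hcon)
    have : x ∈ ⋂ i ∈ I, U i := by
      rw [mem_iInter₂]
      intro i hi
      exact hsupp i x (Finset.mem_filter.1 (hI hi)).2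
    rw [hord I hIc] at this
    exact this
  have hinj : ∀ x y, g x = g y → ∀ i, φ i x = φ i y := by
    intro x y hxy
    let I := (Finset.univ.filter fun i => φ i x ≠ 0) ∪ (Finset.univ.filter fun i => φ i y ≠ 0)
    have hI : I.card ≤ 2 * k + 2 := by
      refine (Finset.card_union_le _ _).trans ?_
      have := hcard x
      have := hcard y
      omega
    have hout : ∀ i ∉ I, φ i x - φ i y = 0 := by
      intro i hi
      have h1 : φ i x = 0 := by
        by_contra h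
        exact hi (Finset.mem_union_left _ (Finset.mem_filter.2 ⟨Finset.mem_univ _, h⟩))
      have h2 : φ i y = 0 := by
        by_contra h
        exact hi (Finset.mem_union_right _ (Finset.mem_filter.2 ⟨Finset.mem_univ _, h⟩))
      rw [h1, h2, sub_zero]
    have hz := vandermonde_finset t ht (fun i => φ i x - φ i y) I (2 * k + 2) hI ?_
    · intro i
      by_cases hi : i ∈ I
      · exact sub_eq_zero.1 (hz i hi)
      · exact sub_eq_zero.1 (hout i hi)
    · intro j hj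
      have h1 : ∑ i ∈ I, (φ i x - φ i y) * t i ^ j = ∑ i, (φ i x - φ i y) * t i ^ j := by
        refine Finset.sum_subset (Finset.subset_univ _) ?_
        intro i _ hi
        rw [hout i hi, zero_mul]
      rw [h1]
      have h2 : ∑ i, (φ i x - φ i y) * t i ^ j = ∑ i, φ i x * t i ^ j - ∑ i, φ i y * t i ^ j := by
        rw [← Finset.sum_sub_distrib]
        exact Finset.sum_congr rfl fun i _ => by ring
      rw [h2]
      rcases j with _ | j
      · simp only [pow_zero, mul_one]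
        rw [hsum, hsum, sub_self]
      · have h3 := congrFun hxy ⟨j, by omega⟩
        exact sub_eq_zero.2 h3
  have hcpt : ∀ i, IsCompact (g '' (U i)ᶜ) := fun i => ((hU i).isClosed_compl.isCompact).image hg
  obtain ⟨δ, hδ, hleb⟩ := lebesgue_number_lemma_of_metric (isCompact_range hg)
    (c := fun i => (g '' (U i)ᶜ)ᶜ) (fun i => (hcpt i).isClosed.isOpen_compl) (by
      rintro _ ⟨x, rfl⟩
      have h1 : ∃ i, φ i x ≠ 0 := by
        by_contra hcon
        push Not at hcon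
        have := hsum x
        rw [Finset.sum_eq_zero (fun i _ => hcon i)] at this
        exact zero_ne_one this
      obtain ⟨i, hi⟩ := h1
      rw [mem_iUnion]
      refine ⟨i, ?_⟩
      rintro ⟨y, hy, hyx⟩
      apply hy
      apply hsupp
      rw [hinj y x hyx i]
      exact hi)
  refine ⟨g, hg, δ, hδ, ?_⟩
  intro x
  obtain ⟨i, hi⟩ := hleb (g x) (mem_range_self x)
  refine ⟨i, ?_⟩
  intro y hy
  by_contra hcon
  exact hi (Metric.mem_ball.2 hy) ⟨y, hcon, rfl⟩

end Embed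

/-! ### Lifting maps to the punctured plane -/

theorem im_real_mul_I (r : ℝ) : (((r : ℝ) : ℂ) * Complex.I).im = r := by simp

theorem complex_lift {Y : Type v} [TopologicalSpace Y] (hY : CircleTrivial Y) (z : Y → ℂ)
    (hz : Continuous z) (hz0 : ∀ y, z y ≠ 0) :
    ∃ l : Y → ℂ, Continuous l ∧ ∀ y, Complex.exp (l y) = z y := by
  have hzn : ∀ y, ‖z y‖ ≠ 0 := fun y => norm_ne_zero_iff.2 (hz0 y)
  have hzc : ∀ y, ((‖z y‖ : ℝ) : ℂ) ≠ 0 := fun y => Complex.ofReal_ne_zero.2 (hzn y)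
  have hmem : ∀ y, z y / ((‖z y‖ : ℝ) : ℂ) ∈ Submonoid.unitSphere ℂ := by
    intro y
    show z y / ((‖z y‖ : ℝ) : ℂ) ∈ Metric.sphere (0 : ℂ) 1
    rw [mem_sphere_zero_iff_norm, norm_div, Complex.norm_real, norm_norm, div_self (hzn y)]
  have hcon : Continuous fun y => z y / ((‖z y‖ : ℝ) : ℂ) :=
    hz.div (Complex.continuous_ofReal.comp hz.norm) hzc
  let h : C(Y, Circle) := ⟨fun y => ⟨z y / ((‖z y‖ : ℝ) : ℂ), hmem y⟩, hcon.subtype_mk hmem⟩
  have hne : ∀ c : Circle, (c : ℂ) ≠ 0 := by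
    intro c h0
    have := c.norm_coe
    rw [h0, norm_zero] at this
    exact zero_ne_one this
  have hcoe : Continuous fun c : Circle => (c : ℂ) := continuous_subtype_val
  let emb : C(Circle, {w : ℂ // w ≠ 0}) := ⟨fun c => ⟨(c : ℂ), hne c⟩, hcoe.subtype_mk hne⟩
  obtain ⟨w, ⟨H⟩⟩ := (hY h).comp_right emb
  let H' := H.symm
  have hw : Complex.exp (Complex.log w.1) = w.1 := Complex.exp_log w.2
  have cov := Complex.isCoveringMap_exp
  have h0 : ∀ a : Y, H'.toContinuousMap (0, a) =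
      (⟨Complex.exp ((ContinuousMap.const Y (Complex.log w.1)) a), Complex.exp_ne_zero _⟩ :
        {w : ℂ // w ≠ 0}) := by
    intro a
    apply Subtype.ext
    show (H' (0, a)).1 = Complex.exp (Complex.log w.1)
    rw [H'.apply_zero, hw]
    rfl
  let L := cov.liftHomotopy H'.toContinuousMap (ContinuousMap.const Y (Complex.log w.1)) h0
  have hL := cov.liftHomotopy_lifts H'.toContinuousMap (ContinuousMap.const Y (Complex.log w.1)) h0
  refine ⟨fun y => L (1, y) + ((Real.log ‖z y‖ : ℝ) : ℂ),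
    (L.continuous.comp (by fun_prop)).add
      (Complex.continuous_ofReal.comp (hz.norm.log hzn)), ?_⟩
  intro y
  have h1 := congrFun hL (1, y)
  have h2 := congrArg Subtype.val h1
  have h3 : (H'.toContinuousMap (1, y)).1 = z y / ((‖z y‖ : ℝ) : ℂ) := by
    show (H' (1, y)).1 = _
    rw [H'.apply_one]
    rfl
  rw [h3] at h2
  have h4 : Complex.exp (L (1, y)) = z y / ((‖z y‖ : ℝ) : ℂ) := h2
  rw [Complex.exp_add, h4, ← Complex.ofReal_exp, Real.exp_log (norm_pos_iff.2 (hz0 y)),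
    div_mul_cancel₀ _ (hzc y)]

/-- if `cos` is positive on the range of a continuous real function on a connected space,
then the range has diameter less than `π` -/
theorem cos_pos_close {X : Type u} [TopologicalSpace X] [PreconnectedSpace X] (D : X → ℝ)
    (hD : Continuous D) (hc : ∀ x, 0 < Real.cos (D x)) (x y : X) : |D x - D y| < Real.pi := by
  have hoc : (range D).OrdConnected := (isPreconnected_range hD).ordConnected
  have key : ∀ x y, D x - D y < Real.pi := by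
    intro x y
    by_contra hcon
    push Not at hcon
    have hpi := Real.pi_pos
    set n : ℤ := ⌈(D y - Real.pi / 2) / Real.pi⌉ with hn
    have h1 : (D y - Real.pi / 2) / Real.pi ≤ n := Int.le_ceil _
    have h2 : (n : ℝ) < (D y - Real.pi / 2) / Real.pi + 1 := Int.ceil_lt_add_one _
    have h3 : D y ≤ (2 * (n : ℝ) + 1) * Real.pi / 2 := by
      rw [div_le_iff₀ hpi] at h1
      linarith
    have h4 : (2 * (n : ℝ) + 1) * Real.pi / 2 ≤ D x := by
      have : ((n : ℝ) - 1) * Real.pi < D y - Real.pi / 2 := by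
        rw [← lt_div_iff₀ hpi]
        linarith
      linarith
    obtain ⟨w, hw⟩ := hoc.out (mem_range_self y) (mem_range_self x) ⟨h3, h4⟩
    have h5 := hc w
    rw [hw] at h5
    have h6 : Real.cos ((2 * (n : ℝ) + 1) * Real.pi / 2) = 0 :=
      Real.cos_eq_zero_iff.2 ⟨n, rfl⟩
    linarith
  rw [abs_lt]
  constructor
  · have := key y x
    linarith
  · exact key x y

/-! ### The cubes -/

theorem exists_cube (m : ℕ) (N : ℕ) (hN : (N : ℤ) = 2 ^ (m + 1) - 1) (s : Fin m → ℝ) :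
    ∃ c : Fin N, ∀ j, 0 < Real.cos (s j - 2 * Real.pi * (2 ^ (j : ℕ) * ((c : ℕ) : ℝ)) / N) := by
  have hpi := Real.pi_pos
  have hm1 : (1 : ℤ) ≤ 2 ^ m := one_le_pow₀ (by norm_num)
  have hN0 : (0 : ℤ) < N := by rw [hN, pow_succ]; omega
  have hNR : (0 : ℝ) < N := by exact_mod_cast hN0
  have hNR2 : (N : ℝ) = 2 * 2 ^ m - 1 := by
    have : ((N : ℤ) : ℝ) = ((2 ^ (m + 1) - 1 : ℤ) : ℝ) := by rw [hN]
    push_cast at this
    rw [this]; ring
  let y : Fin m → ℝ := fun j => N * s j / (2 * Real.pi) - N / 4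
  obtain ⟨c, hc⟩ := Pool.Agent.Y884.FC.cube_cover m
    (fun l => if h : l < m then ⌊y ⟨l, h⟩⌋ + 1 else 0)
  have hcm0 : 0 ≤ c % (N : ℤ) := Int.emod_nonneg _ hN0.ne'
  have hcm1 : c % (N : ℤ) < N := Int.emod_lt_of_pos _ hN0
  refine ⟨⟨(c % (N : ℤ)).toNat, by omega⟩, ?_⟩
  intro j
  obtain ⟨p, hp1, hp2, hp3⟩ := hc j j.2
  simp only [j.2, dif_pos] at hp1 hp2
  rw [← hN] at hp3
  -- `2 ^ j * c' - p = N * q`
  obtain ⟨q, hq⟩ : ∃ q : ℤ, (2 : ℤ) ^ (j : ℕ) * (c % (N : ℤ)) = p + N * q := by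
    obtain ⟨q, hq⟩ := hp3
    refine ⟨q - 2 ^ (j : ℕ) * (c / N), ?_⟩
    have := Int.emod_add_mul_ediv c N
    have h2 : c % (N : ℤ) = c - N * (c / N) := by linarith
    rw [h2]
    linear_combination hq
  have hcast : (((c % (N : ℤ)).toNat : ℕ) : ℝ) = ((c % (N : ℤ) : ℤ) : ℝ) := by
    have : (((c % (N : ℤ)).toNat : ℕ) : ℤ) = c % (N : ℤ) := Int.toNat_of_nonneg hcm0
    exact_mod_cast congrArg (Int.cast : ℤ → ℝ) this
  have hq' : (2 : ℝ) ^ (j : ℕ) * ((c % (N : ℤ) : ℤ) : ℝ) = p + N * q := by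
    exact_mod_cast congrArg (Int.cast : ℤ → ℝ) hq
  show 0 < Real.cos (s j - 2 * Real.pi * (2 ^ (j : ℕ) * (((c % (N : ℤ)).toNat : ℕ) : ℝ)) / N)
  rw [hcast, hq']
  have e : s j - 2 * Real.pi * ((p : ℝ) + N * q) / N
      = (s j - 2 * Real.pi * p / N) - q * (2 * Real.pi) := by
    field_simp
    ring
  rw [e, Real.cos_sub_int_mul_two_pi]
  have hy : y j = N * s j / (2 * Real.pi) - N / 4 := rfl
  have hfl1 := Int.floor_le (y j)
  have hfl2 := Int.lt_floor_add_one (y j)
  have hp1' : ((⌊y j⌋ : ℤ) : ℝ) + 1 ≤ p := by exact_mod_cast hp1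
  have hp2' : (p : ℝ) ≤ (⌊y j⌋ : ℤ) + 1 + 2 ^ m - 2 := by exact_mod_cast hp2
  have hs : s j = 2 * Real.pi * (y j + N / 4) / N := by
    rw [hy]; field_simp; ring
  have e2 : s j - 2 * Real.pi * p / N = 2 * Real.pi * (y j + N / 4 - p) / N := by
    rw [hs]; ring
  rw [e2]
  apply Real.cos_pos_of_mem_Ioo
  constructor
  · have h1 : - (N / 4 : ℝ) < y j + N / 4 - p := by linarith
    have h2 : -(Real.pi / 2) = 2 * Real.pi * (-(N / 4)) / N := by field_simp; ring
    rw [h2]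
    gcongr
  · have h1 : y j + N / 4 - p < (N / 4 : ℝ) := by linarith
    have h2 : Real.pi / 2 = 2 * Real.pi * (N / 4) / N := by field_simp; ring
    rw [h2]
    gcongr

/-! ### The main argument -/

/-- From `(4 ^ (k+1) - 1)`-`𝒦`-likeness and an open cover `𝒰` one gets a map onto a member of
`𝒦`, functions to the punctured plane on that member, and angles on `X`. -/
theorem construct {k : ℕ} {𝒦 : (Y : Type v) → TopologicalSpace Y → Prop}
    (h𝒦 : ∀ (Y : Type v) (t : TopologicalSpace Y), 𝒦 Y t → @IsContinuum Y t ∧ @DimLE k Y t)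
    {X : Type u} [TopologicalSpace X] (hX : IsContinuum X)
    (hn : NLike (4 ^ (k + 1) - 1) 𝒦 X) (𝒰 : Set (Set X)) (h𝒰 : IsOpenCover 𝒰) :
    ∃ (Y : Type v) (_ : TopologicalSpace Y), 𝒦 Y ‹_› ∧ ∃ f : X → Y, Function.Surjective f ∧
      Continuous f ∧ ∃ (z : Fin (2 * k + 1) → Y → ℂ) (α : Fin (2 * k + 1) → X → ℝ),
        (∀ j, Continuous (z j)) ∧ (∀ j, Continuous (α j)) ∧
        (∀ j x, 0 < (z j (f x) * Complex.exp (((-α j x : ℝ) : ℂ) * Complex.I)).re) ∧
        ∀ x₀, ∃ U ∈ 𝒰, ∀ x, (∀ j, |α j x - α j x₀| < 2 * Real.pi) → x ∈ U := by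
  classical
  obtain ⟨hXc, hXk, hX2⟩ := hX
  -- a finite subcover
  obtain ⟨T, hT𝒰, hTfin, hTcov⟩ : ∃ T ⊆ 𝒰, T.Finite ∧ ⋃₀ T = univ := by
    obtain ⟨T, hT, hTf, hTc⟩ := isCompact_univ.elim_finite_subcover_image (b := 𝒰) (c := id)
      h𝒰.1 (by rw [← h𝒰.2, sUnion_eq_biUnion]; rfl)
    exact ⟨T, hT, hTf, univ_subset_iff.1 (by rw [sUnion_eq_biUnion]; exact hTc)⟩
  have : Fintype T := hTfin.fintype
  have hTo : ∀ i : T, IsOpen i.1 := fun i => h𝒰.1 _ (hT𝒰 i.2)
  have hTc : (⋃ i : T, i.1) = univ := by rw [← sUnion_eq_iUnion]; exact hTcov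
  have hk2 : ∀ k : ℕ, k + 2 ≤ 4 ^ (k + 1) - 1 := by
    intro k
    induction k with
    | zero => norm_num
    | succ m ih =>
      have : 4 ^ (m + 1 + 1) = 4 * 4 ^ (m + 1) := by ring
      omega
  -- dimension of `X`
  have hdim : ∀ (J : Type u) [Fintype J], Fintype.card J = k + 2 → ∀ C : J → Set X,
      (∀ j, IsOpen (C j)) → (⋃ j, C j) = univ →
      ∃ V : J → Set X, (∀ j, IsOpen (V j)) ∧ (∀ j, V j ⊆ C j) ∧ (⋃ j, V j) = univ ∧
        (⋂ j, V j) = ∅ := by
    intro J _ hJ C hC hCc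
    have h1 : (range C).encard ≤ ((4 ^ (k + 1) - 1 : ℕ) : ℕ∞) := by
      rw [← image_univ]
      refine (encard_image_le _ _).trans ?_
      rw [encard_univ, ENat.card_eq_coe_fintype_card, hJ]
      exact_mod_cast hk2 k
    obtain ⟨Y, tY, hY, f, hfs, hf⟩ := hn (range C)
      ⟨by rintro _ ⟨j, rfl⟩; exact hC j, by rw [sUnion_range]; exact hCc⟩ h1
    exact shrink_of_dimLE (h𝒦 Y tY hY).2 hJ C hf
  obtain ⟨U', hU'o, hU'U, hU'c, hU'I⟩ := exists_shrink hdim (fun i : T => i.1) hTo hTc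
    (Finset.powersetCard (k + 2) Finset.univ) (fun I hI => (Finset.mem_powersetCard.1 hI).2)
  obtain ⟨g, hg, δ, hδ, hgU⟩ := exists_map U' hU'o hU'c (k := k) (fun I hI => hU'I I
    (Finset.mem_powersetCard.2 ⟨Finset.subset_univ _, hI⟩))
  -- the angles
  let α : Fin (2 * k + 1) → X → ℝ := fun j x => 2 * Real.pi * g x j / δ
  have hα : ∀ j, Continuous (α j) := by
    intro j
    exact ((continuous_const.mul ((continuous_apply j).comp hg)).div_const _)
  set N : ℕ := 4 ^ (k + 1) - 1 with hNdef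
  have hN : (N : ℤ) = 2 ^ (2 * k + 1 + 1) - 1 := by
    have h1 : 1 ≤ 4 ^ (k + 1) := Nat.one_le_pow _ _ (by norm_num)
    rw [hNdef, Nat.cast_sub h1]
    push_cast
    have h2 : (2 : ℤ) ^ (2 * k + 1 + 1) = (2 ^ 2) ^ (k + 1) := by rw [← pow_mul]; ring_nf
    rw [h2]; norm_num
  let β : Fin N → Fin (2 * k + 1) → ℝ := fun c j => 2 * Real.pi * (2 ^ (j : ℕ) * ((c : ℕ) : ℝ)) / N
  let O : Fin N → Set X := fun c => {x | ∀ j, 0 < Real.cos (α j x - β c j)}
  have hO : ∀ a, IsOpen (O a) := by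
    intro a
    have : O a = ⋂ j, {x | 0 < Real.cos (α j x - β a j)} := by
      ext x; simp [O]
    rw [this]
    exact isOpen_iInter_of_finite fun j => isOpen_lt continuous_const
      (Real.continuous_cos.comp ((hα j).sub continuous_const))
  have hOc : (⋃ a, O a) = univ := by
    rw [eq_univ_iff_forall]
    intro x
    obtain ⟨c, hc⟩ := exists_cube (2 * k + 1) N hN (fun j => α j x)
    rw [mem_iUnion]
    exact ⟨c, hc⟩
  have hcard : (range O).encard ≤ (N : ℕ∞) := by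
    rw [← image_univ]
    refine (encard_image_le _ _).trans ?_
    rw [encard_univ, ENat.card_eq_coe_fintype_card]
    simp
  obtain ⟨Y, tY, hY, f, hfs, hfc, 𝒱, h𝒱, href⟩ := hn (range O)
    ⟨by rintro _ ⟨a, rfl⟩; exact hO a, by rw [sUnion_range]; exact hOc⟩ hcard
  obtain ⟨⟨hYc, hYk, hY2⟩, _⟩ := h𝒦 Y tY hY
  -- a cover of `Y` indexed by `Fin N`
  let Q : Fin N → Set Y := fun a => ⋃₀ {V | V ∈ 𝒱 ∧ f ⁻¹' V ⊆ O a}
  have hQo : ∀ a, IsOpen (Q a) := fun a => isOpen_sUnion fun V hV => h𝒱.1 V hV.1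
  have hQc : (⋃ a, Q a) = univ := by
    rw [eq_univ_iff_forall]
    intro y
    have : y ∈ ⋃₀ 𝒱 := by rw [h𝒱.2]; exact mem_univ _
    obtain ⟨V, hV, hy⟩ := this
    obtain ⟨_, ⟨a, rfl⟩, ha⟩ := href _ (mem_image_of_mem _ hV)
    rw [mem_iUnion]
    exact ⟨a, V, ⟨hV, ha⟩, hy⟩
  have hQO : ∀ a x, f x ∈ Q a → x ∈ O a := by
    rintro a x ⟨V, ⟨_, hV⟩, hx⟩
    exact hV hx
  obtain ⟨ψ, hψ⟩ := PartitionOfUnity.exists_isSubordinate (isClosed_univ (X := Y)) Q hQo
    (by rw [hQc])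
  have hψs : ∀ a y, ψ a y ≠ 0 → y ∈ Q a := fun a y hy => hψ a (subset_tsupport _ hy)
  have hψsum : ∀ y, ∑ a, ψ a y = 1 := by
    intro y
    rw [← finsum_eq_sum_of_fintype]
    exact ψ.sum_eq_one (mem_univ y)
  let z : Fin (2 * k + 1) → Y → ℂ := fun j y =>
    ∑ a, ((ψ a y : ℝ) : ℂ) * Complex.exp (((β a j : ℝ) : ℂ) * Complex.I)
  have hz : ∀ j, Continuous (z j) := fun j =>
    continuous_finsetSum _ fun a _ =>
      (Complex.continuous_ofReal.comp (ψ a).continuous).mul continuous_const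
  refine ⟨Y, tY, hY, f, hfs, hfc, z, α, hz, hα, ?_, ?_⟩
  · intro j x
    have h1 : (z j (f x) * Complex.exp (((-α j x : ℝ) : ℂ) * Complex.I)).re
        = ∑ a, ψ a (f x) * Real.cos (α j x - β a j) := by
      simp only [z]
      rw [Finset.sum_mul, Complex.re_sum]
      refine Finset.sum_congr rfl fun a _ => ?_
      have e : ((ψ a (f x) : ℝ) : ℂ) * Complex.exp (((β a j : ℝ) : ℂ) * Complex.I) *
          Complex.exp (((-α j x : ℝ) : ℂ) * Complex.I)
          = ((ψ a (f x) : ℝ) : ℂ) * Complex.exp (((β a j - α j x : ℝ) : ℂ) * Complex.I) := by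
        rw [mul_assoc, ← Complex.exp_add]
        congr 2
        push_cast
        ring
      rw [e, Complex.re_ofReal_mul, Complex.exp_ofReal_mul_I_re, ← Real.cos_neg, neg_sub]
    rw [h1]
    have h2 : ∃ a, ψ a (f x) ≠ 0 := by
      by_contra hcon
      push Not at hcon
      have := hψsum (f x)
      rw [Finset.sum_eq_zero (fun a _ => hcon a)] at this
      exact zero_ne_one this
    obtain ⟨a, ha⟩ := h2
    refine Finset.sum_pos' ?_ ⟨a, Finset.mem_univ _, ?_⟩
    · intro b _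
      by_cases hb : ψ b (f x) = 0
      · rw [hb, zero_mul]
      · exact mul_nonneg (ψ.nonneg b _) (hQO b x (hψs b _ hb) j).le
    · exact mul_pos (lt_of_le_of_ne (ψ.nonneg a _) (Ne.symm ha)) (hQO a x (hψs a _ ha) j)
  · intro x₀
    obtain ⟨i, hi⟩ := hgU x₀
    refine ⟨i.1, hT𝒰 i.2, ?_⟩
    intro x hx
    apply hU'U i
    apply hi
    rw [dist_pi_lt_iff hδ]
    intro j
    have h3 : |α j x - α j x₀| < 2 * Real.pi := hx j
    have h5 : α j x - α j x₀ = 2 * Real.pi * ((g x j - g x₀ j) / δ) := by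
      simp only [α]
      ring
    rw [h5, abs_mul, abs_of_pos (by positivity : 0 < 2 * Real.pi)] at h3
    have h6 : |(g x j - g x₀ j) / δ| < 1 := by
      have hp : 0 < 2 * Real.pi := by positivity
      nlinarith
    rw [abs_div, abs_of_pos hδ, div_lt_one hδ] at h6
    rw [Real.dist_eq]
    exact h6

/-- classes with vanishing first cohomology -/
theorem like_of_nlike {k : ℕ} {𝒦 : (Y : Type v) → TopologicalSpace Y → Prop}
    (h𝒦 : ∀ (Y : Type v) (t : TopologicalSpace Y), 𝒦 Y t → @IsContinuum Y t ∧ @DimLE k Y t)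
    (hS : ∀ (Y : Type v) (t : TopologicalSpace Y), 𝒦 Y t → @CircleTrivial Y t)
    {X : Type u} [TopologicalSpace X] (hX : IsContinuum X)
    (hn : NLike (4 ^ (k + 1) - 1) 𝒦 X) : Like 𝒦 X := by
  intro 𝒰 h𝒰
  obtain ⟨Y, tY, hY, f, hfs, hfc, z, α, hz, hα, hpos, hU⟩ := construct h𝒦 hX hn 𝒰 h𝒰
  obtain ⟨hXc, hXk, hX2⟩ := hX
  refine ⟨Y, tY, hY, f, hfs, hfc, ?_⟩
  have hlift : ∀ j, ∃ l : Y → ℂ, Continuous l ∧ ∀ y, Complex.exp (l y) = z j y := by
    intro j
    refine complex_lift (hS Y tY hY) (z j) (hz j) ?_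
    intro y hy
    obtain ⟨x, rfl⟩ := hfs y
    have h1 := hpos j x
    rw [hy, zero_mul, Complex.zero_re] at h1
    exact lt_irrefl _ h1
  choose l hl hlexp using hlift
  let θ : Fin (2 * k + 1) → Y → ℝ := fun j y => (l j y).im
  have hθ : ∀ j, Continuous (θ j) := fun j => Complex.continuous_im.comp (hl j)
  have hcos : ∀ j x, 0 < Real.cos (α j x - θ j (f x)) := by
    intro j x
    have h1 := hpos j x
    rw [← hlexp j (f x), ← Complex.exp_add, Complex.exp_re] at h1
    have h2 : (l j (f x) + ((-α j x : ℝ) : ℂ) * Complex.I).im = -(α j x - θ j (f x)) := by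
      rw [Complex.add_im, im_real_mul_I]
      simp only [θ]
      ring
    rw [h2, Real.cos_neg] at h1
    exact (mul_pos_iff_of_pos_left (Real.exp_pos _)).1 h1
  have : PreconnectedSpace X := hXc.toPreconnectedSpace
  have hclose : ∀ j x y, |(α j x - θ j (f x)) - (α j y - θ j (f y))| < Real.pi := fun j x y =>
    cos_pos_close (fun x => α j x - θ j (f x)) ((hα j).sub ((hθ j).comp hfc)) (hcos j) x y
  refine ⟨range fun y0 : Y => {y : Y | ∀ j, |θ j y - θ j y0| < Real.pi}, ⟨?_, ?_⟩, ?_⟩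
  · rintro _ ⟨y0, rfl⟩
    have : {y : Y | ∀ j, |θ j y - θ j y0| < Real.pi} = ⋂ j, {y | |θ j y - θ j y0| < Real.pi} := by
      ext y; simp
    show IsOpen {y : Y | ∀ j, |θ j y - θ j y0| < Real.pi}
    rw [this]
    exact isOpen_iInter_of_finite fun j =>
      isOpen_lt ((hθ j).sub continuous_const).abs continuous_const
  · rw [eq_univ_iff_forall]
    intro y
    refine ⟨_, mem_range_self y, ?_⟩
    intro j
    rw [sub_self, abs_zero]
    exact Real.pi_pos
  · rintro _ ⟨_, ⟨y0, rfl⟩, rfl⟩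
    obtain ⟨x0, rfl⟩ := hfs y0
    obtain ⟨U, hU𝒰, hUx⟩ := hU x0
    refine ⟨U, hU𝒰, ?_⟩
    intro x hx
    apply hUx
    intro j
    have h1 := hclose j x x0
    have h2 : |θ j (f x) - θ j (f x0)| < Real.pi := hx j
    have h4 : α j x - α j x0 = ((α j x - θ j (f x)) - (α j x0 - θ j (f x0)))
        + (θ j (f x) - θ j (f x0)) := by ring
    rw [h4]
    refine (abs_add_le _ _).trans_lt ?_
    linarith

/-- subcontinua of coverings project by locally injective maps -/
theorem hat_of_covHat {m : ℕ} {𝒦 : (Y : Type v) → TopologicalSpace Y → Prop} {Z : Type v}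
    (tZ : TopologicalSpace Z) (h : CovHat m 𝒦 Z tZ) : Hat 𝒦 Z tZ := by
  obtain ⟨hZ, Y, tY, hY, p, hp, hps, z, hz, hz0, l, hl, hlexp, hinj⟩ := h
  refine ⟨hZ, Y, tY, hY, p, hp, hps, ?_⟩
  intro a
  refine ⟨{b : Z | ∀ j, |(l j b).im - (l j a).im| < Real.pi}, ?_, ?_, ?_⟩
  · have : {b : Z | ∀ j, |(l j b).im - (l j a).im| < Real.pi}
        = ⋂ j, {b : Z | |(l j b).im - (l j a).im| < Real.pi} := by
      ext b; simp
    rw [this]
    exact isOpen_iInter_of_finite fun j => isOpen_lt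
      ((Complex.continuous_im.comp (hl j)).sub continuous_const).abs continuous_const
  · intro j
    rw [sub_self, abs_zero]
    exact Real.pi_pos
  · intro b hb b' hb' hbb
    apply hinj
    refine Prod.ext hbb ?_
    funext j
    show l j b = l j b'
    have h1 : Complex.exp (l j b) = Complex.exp (l j b') := by
      rw [hlexp, hlexp, hbb]
    obtain ⟨n, hn⟩ := Complex.exp_eq_exp_iff_exists_int.1 h1
    have h2 : (l j b).im = (l j b').im + n * (2 * Real.pi) := by
      have := congrArg Complex.im hn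
      rw [Complex.add_im] at this
      rw [this]
      congr 1
      simp [Complex.mul_im]
    have h3 := abs_lt.1 (hb j)
    have h4 := abs_lt.1 (hb' j)
    have hpi := Real.pi_pos
    have h5 : (-1 : ℝ) < n := by
      by_contra hcon
      push Not at hcon
      have : (n : ℝ) * (2 * Real.pi) ≤ -1 * (2 * Real.pi) :=
        mul_le_mul_of_nonneg_right hcon (by positivity)
      linarith [h3.1, h3.2, h4.1, h4.2]
    have h6 : (n : ℝ) < 1 := by
      by_contra hcon
      push Not at hcon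
      have : 1 * (2 * Real.pi) ≤ (n : ℝ) * (2 * Real.pi) :=
        mul_le_mul_of_nonneg_right hcon (by positivity)
      linarith [h3.1, h3.2, h4.1, h4.2]
    have h7 : (-1 : ℤ) < n := by exact_mod_cast h5
    have h8 : n < (1 : ℤ) := by exact_mod_cast h6
    have h9 : n = 0 := by omega
    rw [hn, h9]
    simp

/-- arbitrary classes -/
theorem cov_like_of_nlike {k : ℕ} {𝒦 : (Y : Type v) → TopologicalSpace Y → Prop}
    (h𝒦 : ∀ (Y : Type v) (t : TopologicalSpace Y), 𝒦 Y t → @IsContinuum Y t ∧ @DimLE k Y t)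
    {X : Type u} [TopologicalSpace X] (hX : IsContinuum X)
    (hn : NLike (4 ^ (k + 1) - 1) 𝒦 X) : Like (CovHat (2 * k + 1) 𝒦) X := by
  intro 𝒰 h𝒰
  obtain ⟨Y, tY, hY, f, hfs, hfc, z, α, hz, hα, hpos, hU⟩ := construct h𝒦 hX hn 𝒰 h𝒰
  obtain ⟨hXc, hXk, hX2⟩ := hX
  obtain ⟨⟨hYc, hYk, hY2⟩, _⟩ := h𝒦 Y tY hY
  have hz0 : ∀ j y, z j y ≠ 0 := by
    intro j y hy
    obtain ⟨x, rfl⟩ := hfs y
    have h1 := hpos j x
    rw [hy, zero_mul, Complex.zero_re] at h1
    exact lt_irrefl _ h1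
  -- the lift
  let q : Fin (2 * k + 1) → X → ℂ := fun j x =>
    z j (f x) * Complex.exp (((-α j x : ℝ) : ℂ) * Complex.I)
  have hq : ∀ j, Continuous (q j) := fun j =>
    ((hz j).comp hfc).mul (Complex.continuous_exp.comp
      ((Complex.continuous_ofReal.comp (hα j).neg).mul continuous_const))
  have hqpos : ∀ j x, 0 < (q j x).re := hpos
  have hq0 : ∀ j x, q j x ≠ 0 := by
    intro j x h0
    have := hqpos j x
    rw [h0, Complex.zero_re] at this
    exact lt_irrefl _ this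
  let l : X → Fin (2 * k + 1) → ℂ := fun x j =>
    Complex.log (q j x) + ((α j x : ℝ) : ℂ) * Complex.I
  have hl : Continuous l := by
    refine continuous_pi fun j => ?_
    exact ((hq j).clog fun x => Or.inl (hqpos j x)).add
      ((Complex.continuous_ofReal.comp (hα j)).mul continuous_const)
  have hlexp : ∀ x j, Complex.exp (l x j) = z j (f x) := by
    intro x j
    show Complex.exp (Complex.log (q j x) + ((α j x : ℝ) : ℂ) * Complex.I) = z j (f x)
    rw [Complex.exp_add, Complex.exp_log (hq0 j x)]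
    show z j (f x) * Complex.exp (((-α j x : ℝ) : ℂ) * Complex.I) *
      Complex.exp (((α j x : ℝ) : ℂ) * Complex.I) = z j (f x)
    rw [mul_assoc, ← Complex.exp_add]
    have e : ((-α j x : ℝ) : ℂ) * Complex.I + ((α j x : ℝ) : ℂ) * Complex.I = 0 := by
      push_cast; ring
    rw [e, Complex.exp_zero, mul_one]
  have hlim : ∀ x j, |(l x j).im - α j x| < Real.pi / 2 := by
    intro x j
    have e : (l x j).im - α j x = (q j x).arg := by
      show (Complex.log (q j x) + ((α j x : ℝ) : ℂ) * Complex.I).im - α j x = (q j x).arg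
      rw [Complex.add_im, im_real_mul_I, Complex.log_im]
      ring
    rw [e]
    exact Complex.abs_arg_lt_pi_div_two_iff.2 (Or.inl (hqpos j x))
  let F : X → Y × (Fin (2 * k + 1) → ℂ) := fun x => (f x, l x)
  have hF : Continuous F := hfc.prodMk hl
  let Z : Type v := ↥(range F)
  have hZF : ∀ b : Z, ∀ j, Complex.exp (b.1.2 j) = z j b.1.1 := by
    rintro ⟨_, x, rfl⟩ j
    exact hlexp x j
  have hcont : IsContinuum Z := by
    refine ⟨?_, ?_, ?_⟩
    · exact isConnected_iff_connectedSpace.1 (isConnected_range hF)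
    · exact isCompact_iff_compactSpace.1 (isCompact_range hF)
    · infer_instance
  have hco : ∀ j, Continuous fun b : Z => b.1.2 j := fun j =>
    (continuous_apply j).comp (continuous_snd.comp continuous_subtype_val)
  have him : ∀ j, Continuous fun b : Z => (b.1.2 j).im := fun j =>
    Complex.continuous_im.comp (hco j)
  have hopen : ∀ a : Z, IsOpen {b : Z | ∀ j, |(b.1.2 j).im - (a.1.2 j).im| < Real.pi} := by
    intro a
    have : {b : Z | ∀ j, |(b.1.2 j).im - (a.1.2 j).im| < Real.pi}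
        = ⋂ j, {b : Z | |(b.1.2 j).im - (a.1.2 j).im| < Real.pi} := by
      ext b; simp
    rw [this]
    exact isOpen_iInter_of_finite fun j => isOpen_lt ((him j).sub continuous_const).abs
      continuous_const
  refine ⟨Z, inferInstance, ⟨hcont, Y, tY, hY, fun b => b.1.1,
    continuous_fst.comp continuous_subtype_val, ?_, z, hz, hz0, fun j b => b.1.2 j, hco,
    fun j b => hZF b j, ?_⟩, fun x => ⟨F x, mem_range_self x⟩, ?_,
    hF.subtype_mk _, range fun a : Z => {b : Z | ∀ j, |(b.1.2 j).im - (a.1.2 j).im| < Real.pi},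
    ⟨?_, ?_⟩, ?_⟩
  · intro y
    obtain ⟨x, rfl⟩ := hfs y
    exact ⟨⟨F x, mem_range_self x⟩, rfl⟩
  · intro b b' hbb
    exact Subtype.ext hbb
  · rintro ⟨_, x, rfl⟩
    exact ⟨x, rfl⟩
  · rintro _ ⟨a, rfl⟩
    exact hopen a
  · rw [eq_univ_iff_forall]
    intro a
    refine ⟨_, mem_range_self a, ?_⟩
    intro j
    rw [sub_self, abs_zero]
    exact Real.pi_pos
  · rintro _ ⟨_, ⟨⟨_, x₀, rfl⟩, rfl⟩, rfl⟩
    obtain ⟨U, hU𝒰, hUx⟩ := hU x₀
    refine ⟨U, hU𝒰, ?_⟩
    intro x hx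
    apply hUx
    intro j
    have h1 : |(l x j).im - (l x₀ j).im| < Real.pi := hx j
    have h2 := abs_lt.1 (hlim x j)
    have h3 := abs_lt.1 (hlim x₀ j)
    have h4 := abs_lt.1 h1
    rw [abs_lt]
    constructor <;> linarith [h2.1, h2.2, h3.1, h3.2, h4.1, h4.2]

/-- composition of `𝒰`-maps -/
theorem like_trans {𝒦 : (Y : Type v) → TopologicalSpace Y → Prop}
    {𝓛 : (Y : Type v) → TopologicalSpace Y → Prop} {X : Type u} [TopologicalSpace X]
    (h : Like 𝓛 X) (h𝓛 : ∀ (Z : Type v) (t : TopologicalSpace Z), 𝓛 Z t → @Like 𝒦 Z t) :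
    Like 𝒦 X := by
  intro 𝒰 h𝒰
  obtain ⟨Z, tZ, hZ, f, hfs, hfc, 𝒱, h𝒱, href⟩ := h 𝒰 h𝒰
  obtain ⟨Y, tY, hY, g, hgs, hgc, 𝒲, h𝒲, href'⟩ := h𝓛 Z tZ hZ 𝒱 h𝒱
  refine ⟨Y, tY, hY, g ∘ f, hgs.comp hfs, hgc.comp hfc, 𝒲, h𝒲, ?_⟩
  rintro _ ⟨W, hW, rfl⟩
  obtain ⟨V, hV, hWV⟩ := href' _ (mem_image_of_mem _ hW)
  obtain ⟨U, hU, hVU⟩ := href _ (mem_image_of_mem _ hV)
  exact ⟨U, hU, (preimage_mono hWV).trans hVU⟩

theorem circleTrivial_of_contractible {Y : Type v} [TopologicalSpace Y] [ContractibleSpace Y] :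
    CircleTrivial Y := by
  intro h
  have := (id_nullhomotopic Y).comp_right h
  simpa using this

/-- **Covers with `4 ^ (k+1) - 1` members and arbitrary classes of continua of dimension at most
`k`.** Let `𝒦` be any class of continua of dimension at most `k`, let `n = 4 ^ (k+1) - 1`, and let
`X` be a continuum.
(1) If `X` is `n`-`𝒦`-like, then `X` is `𝒦̂`-like, `𝒦̂` being the class of all continua that admit a
locally injective map onto a member of `𝒦`.
(2) If `X` is `n`-`𝒦`-like, then `X` is even like the class of all subcontinua of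
`ℤ ^ (2k+1)`-coverings of members `Y` of `𝒦` that project onto `Y`.
(3) If all these subcontinua are `𝒦`-like, then `X` is `𝒦`-like if and only if `X` is
`n`-`𝒦`-like.
(4) The same holds if every map of every member of `𝒦` to the circle is null-homotopic, in
particular (5) if all members of `𝒦` are contractible. -/
theorem result (k : ℕ) (𝒦 : (Y : Type v) → TopologicalSpace Y → Prop)
    (h𝒦 : ∀ (Y : Type v) (t : TopologicalSpace Y), 𝒦 Y t → @IsContinuum Y t ∧ @DimLE k Y t)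
    (X : Type u) [TopologicalSpace X] (hX : IsContinuum X) :
    (NLike (4 ^ (k + 1) - 1) 𝒦 X → Like (Hat 𝒦) X) ∧
    (NLike (4 ^ (k + 1) - 1) 𝒦 X → Like (CovHat (2 * k + 1) 𝒦) X) ∧
    ((∀ (Z : Type v) (t : TopologicalSpace Z), CovHat (2 * k + 1) 𝒦 Z t → @Like 𝒦 Z t) →
      (Like 𝒦 X ↔ NLike (4 ^ (k + 1) - 1) 𝒦 X)) ∧
    ((∀ (Y : Type v) (t : TopologicalSpace Y), 𝒦 Y t → @CircleTrivial Y t) →
      (Like 𝒦 X ↔ NLike (4 ^ (k + 1) - 1) 𝒦 X)) ∧
    ((∀ (Y : Type v) (t : TopologicalSpace Y), 𝒦 Y t → @ContractibleSpace Y t) →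
      (Like 𝒦 X ↔ NLike (4 ^ (k + 1) - 1) 𝒦 X)) := by
  have h2 : NLike (4 ^ (k + 1) - 1) 𝒦 X → Like (CovHat (2 * k + 1) 𝒦) X := fun h =>
    cov_like_of_nlike h𝒦 hX h
  have triv : Like 𝒦 X → NLike (4 ^ (k + 1) - 1) 𝒦 X := fun h 𝒰 h𝒰 _ => h 𝒰 h𝒰
  refine ⟨fun h => ?_, h2, fun hH => ⟨triv, fun h => like_trans (h2 h) hH⟩,
    fun hS => ⟨triv, fun h => like_of_nlike h𝒦 hS hX h⟩,
    fun hS => ⟨triv, fun h => like_of_nlike h𝒦 (fun Y t hY => ?_) hX h⟩⟩
  · intro 𝒰 h𝒰
    obtain ⟨Z, tZ, hZ, f, hf⟩ := h2 h 𝒰 h𝒰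
    exact ⟨Z, tZ, hat_of_covHat tZ hZ, f, hf⟩
  · have := hS Y t hY
    exact circleTrivial_of_contractible

end Pool.Agent.Results.MP_05361d_gt.EveryClass
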