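import Mathlib
import Pool.Agent.Results.MP_05361d_gt.FiniteCovers

/-!
# Finite-cover characterisation of `𝒦`-like continua, `𝒦` with trivial first cohomology

For every `k`, the number `n = 2 ^ (2k+2) - 1` has the following property: if `𝒦` is any class of
continua of dimension at most `k` on which every map to the punctured plane has a logarithm (the
first Čech cohomology is trivial), then a continuum is `𝒦`-like if and only if it is `n`-`𝒦`-like.

The cover with few members comes from the vertex stars of the Freudenthal triangulation of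
`ℝ^(2k+1)`, which are coloured periodically by `z ↦ ∑ 2^i z_i` modulo `2 ^ (2k+2) - 1`.
-/

set_option autoImplicit false
set_option linter.unusedSectionVars false
open Set Topology

universe u v

namespace Pool.Agent.Results.MP_05361d_gt.TrivialFirstCohomology

open Pool.Agent.Results.MP_05361d_gt.FiniteCovers

/-- Every continuous map of `Y` to the punctured plane has a continuous logarithm. -/
def HasLogs (Y : Type v) [TopologicalSpace Y] : Prop :=
  ∀ z : Y → ℂ, Continuous z → (∀ y, z y ≠ 0) →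
    ∃ l : Y → ℂ, Continuous l ∧ ∀ y, Complex.exp (l y) = z y

/-! ### The difference vectors -/

/-- The difference vectors of adjacent vertices: entries `0, 1` or entries `0, -1`. -/
def Near {N : ℕ} (d : Fin N → ℤ) : Prop := (∀ i, |d i| ≤ 1) ∧ ∀ i j, d i - d j ≤ 1

/-- The code of a vector. -/
def code {N : ℕ} (d : Fin N → ℤ) : ℤ := ∑ i : Fin N, (2 : ℤ) ^ (i : ℕ) * d i

lemma code_succ {N : ℕ} (d : Fin (N + 1) → ℤ) : code d = d 0 + 2 * code fun i => d i.succ := by
  unfold code
  rw [Fin.sum_univ_succ, Finset.mul_sum]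
  simp only [Fin.val_zero, pow_zero, one_mul, Fin.val_succ, pow_succ]
  congr 1
  exact Finset.sum_congr rfl fun i _ => by ring

lemma code_bound : ∀ {N : ℕ} (d : Fin N → ℤ), (∀ i, |d i| ≤ 1) → |code d| ≤ 2 ^ N - 1
  | 0, d, _ => by simp [code]
  | N + 1, d, h => by
    rw [code_succ, pow_succ]
    have h1 := code_bound (fun i => d i.succ) fun i => h _
    have h2 := h 0
    rw [abs_le] at *
    constructor <;> linarith [h1.1, h1.2, h2.1, h2.2]

lemma code_zero : ∀ {N : ℕ} (d : Fin N → ℤ), (∀ i, |d i| ≤ 1) → code d = 0 → ∀ i, d i = 0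
  | 0, d, _, _ => fun i => i.elim0
  | N + 1, d, h, h0 => by
    rw [code_succ] at h0
    have h2 := h 0
    rw [abs_le] at h2
    have h3 : d 0 = 0 := by omega
    have h4 : code (fun i => d i.succ) = 0 := by omega
    have h5 := code_zero (fun i => d i.succ) (fun i => h _) h4
    intro i
    refine Fin.cases h3 (fun j => h5 j) i

lemma code_sub {N : ℕ} (d e : Fin N → ℤ) : code (fun i => d i - e i) = code d - code e := by
  unfold code
  rw [← Finset.sum_sub_distrib]
  exact Finset.sum_congr rfl fun i _ => by ring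

lemma code_nonneg {N : ℕ} {d : Fin N → ℤ} (h : ∀ i, 0 ≤ d i) : 0 ≤ code d :=
  Finset.sum_nonneg fun i _ => mul_nonneg (by positivity) (h i)

lemma code_nonpos {N : ℕ} {d : Fin N → ℤ} (h : ∀ i, d i ≤ 0) : code d ≤ 0 :=
  Finset.sum_nonpos fun i _ => mul_nonpos_of_nonneg_of_nonpos (by positivity) (h i)

lemma near_sign {N : ℕ} {d : Fin N → ℤ} (h : Near d) : (∀ i, 0 ≤ d i) ∨ (∀ i, d i ≤ 0) := by
  by_cases hp : ∃ i, 0 < d i
  · obtain ⟨i, hi⟩ := hp
    left
    intro j
    have := h.2 i j
    omega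
  · push Not at hp
    exact Or.inr hp

/-- The code is injective on the difference vectors, even modulo `2 ^ (N+1) - 1`. -/
lemma near_inj {N : ℕ} {d e : Fin N → ℤ} (hd : Near d) (he : Near e)
    (h : ((2 : ℤ) ^ (N + 1) - 1) ∣ code d - code e) : d = e := by
  have h1 := code_bound d hd.1
  have h2 := code_bound e he.1
  have h3 : code d - code e = 0 := by
    apply Int.eq_zero_of_abs_lt_dvd h
    rw [abs_le] at h1 h2
    rw [abs_lt, pow_succ]
    constructor <;> linarith [h1.1, h1.2, h2.1, h2.2]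
  have key : (∀ i, |d i - e i| ≤ 1) → d = e := by
    intro hle
    have := code_zero (fun i => d i - e i) hle (by rw [code_sub]; exact h3)
    funext i
    exact sub_eq_zero.1 (this i)
  have hd1 := hd.1
  have he1 := he.1
  rcases near_sign hd with s | s <;> rcases near_sign he with t | t
  · refine key fun i => ?_
    have a1 := abs_le.1 (hd1 i); have a2 := abs_le.1 (he1 i); have a3 := s i; have a4 := t i
    rw [abs_le]; omega
  · have c1 := code_nonneg s
    have c2 := code_nonpos t
    have z1 := code_zero d hd1 (by omega)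
    have z2 := code_zero e he1 (by omega)
    funext i
    rw [z1 i, z2 i]
  · have c1 := code_nonpos s
    have c2 := code_nonneg t
    have z1 := code_zero d hd1 (by omega)
    have z2 := code_zero e he1 (by omega)
    funext i
    rw [z1 i, z2 i]
  · refine key fun i => ?_
    have a1 := abs_le.1 (hd1 i); have a2 := abs_le.1 (he1 i); have a3 := s i; have a4 := t i
    rw [abs_le]; omega

/-! ### The coloured vertex stars -/

section stars

variable {X : Type u} [TopologicalSpace X] {N : ℕ}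

/-- The open star of the vertex `z`. -/
def Star (G : X → Fin N → ℝ) (z : Fin N → ℤ) : Set X :=
  {x | (∀ i, |G x i - z i| < 1) ∧ ∀ i j, (G x i - z i) - (G x j - z j) < 1}

lemma isOpen_star {G : X → Fin N → ℝ} (hG : Continuous G) (z : Fin N → ℤ) :
    IsOpen (Star G z) := by
  have hc : ∀ i, Continuous fun x => G x i := fun i => (continuous_apply i).comp hG
  have : Star G z = (⋂ i, {x | |G x i - z i| < 1}) ∩
      ⋂ i, ⋂ j, {x | (G x i - z i) - (G x j - z j) < 1} := by
    ext x; simp [Star]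
  rw [this]
  refine IsOpen.inter (isOpen_iInter_of_finite fun i => ?_)
    (isOpen_iInter_of_finite fun i => isOpen_iInter_of_finite fun j => ?_)
  · exact isOpen_lt ((hc i).sub continuous_const).abs continuous_const
  · exact isOpen_lt (((hc i).sub continuous_const).sub ((hc j).sub continuous_const))
      continuous_const

lemma mem_star_floor (G : X → Fin N → ℝ) (x : X) : x ∈ Star G fun i => ⌊G x i⌋ := by
  have h1 : ∀ i, 0 ≤ G x i - (⌊G x i⌋ : ℝ) := fun i => sub_nonneg.2 (Int.floor_le _)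
  have h2 : ∀ i, G x i - (⌊G x i⌋ : ℝ) < 1 := fun i => by
    have := Int.lt_floor_add_one (G x i)
    linarith
  refine ⟨fun i => ?_, fun i j => ?_⟩
  · rw [abs_of_nonneg (h1 i)]; exact h2 i
  · have := h1 j; have := h2 i; linarith

lemma star_near {G : X → Fin N → ℝ} {x : X} {z w : Fin N → ℤ} (hz : x ∈ Star G z)
    (hw : x ∈ Star G w) : Near fun i => w i - z i := by
  constructor
  · intro i
    have h1 := abs_lt.1 (hz.1 i)
    have h2 := abs_lt.1 (hw.1 i)
    have h3 : (w i : ℝ) - z i < 2 := by linarith [h1.1, h1.2, h2.1, h2.2]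
    have h4 : -2 < (w i : ℝ) - z i := by linarith [h1.1, h1.2, h2.1, h2.2]
    have h5 : w i - z i < 2 := by exact_mod_cast h3
    have h6 : -2 < w i - z i := by exact_mod_cast h4
    show |w i - z i| ≤ 1
    rw [abs_le]; omega
  · intro i j
    have h1 := hz.2 i j
    have h2 := hw.2 j i
    have h3 : ((w i : ℝ) - z i) - (w j - z j) < 2 := by linarith
    have h4 : (w i - z i) - (w j - z j) < 2 := by exact_mod_cast h3
    show (w i - z i) - (w j - z j) ≤ 1
    omega

variable {M : ℕ}

/-- The colour of a vertex. -/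
def col (M : ℕ) (z : Fin N → ℤ) : ZMod M := ((code z : ℤ) : ZMod M)

/-- The union of the stars of colour `a`. -/
def O (G : X → Fin N → ℝ) (a : ZMod M) : Set X := {x | ∃ z, col M z = a ∧ x ∈ Star G z}

lemma isOpen_O {G : X → Fin N → ℝ} (hG : Continuous G) (a : ZMod M) : IsOpen (O G a) := by
  have : O G a = ⋃ z ∈ {z | col M z = a}, Star G z := by
    ext x; simp [O]
  rw [this]
  exact isOpen_biUnion fun z _ => isOpen_star hG z

lemma iUnion_O (G : X → Fin N → ℝ) : (⋃ a : ZMod M, O G a) = univ := by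
  rw [eq_univ_iff_forall]
  intro x
  rw [mem_iUnion]
  exact ⟨_, _, rfl, mem_star_floor G x⟩

lemma diff_eq (hM : (M : ℤ) = 2 ^ (N + 1) - 1) {G : X → Fin N → ℝ} {x y : X}
    {z w z' w' : Fin N → ℤ} (hz : x ∈ Star G z) (hw : x ∈ Star G w) (hz' : y ∈ Star G z')
    (hw' : y ∈ Star G w') (h1 : col M z = col M z') (h2 : col M w = col M w') :
    (fun i => w i - z i) = fun i => w' i - z' i := by
  refine near_inj (star_near hz hw) (star_near hz' hw') ?_
  rw [code_sub, code_sub, ← hM]
  unfold col at h1 h2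
  rw [ZMod.intCast_eq_intCast_iff_dvd_sub] at h1 h2
  have := dvd_sub h1 h2
  refine this.trans (dvd_of_eq ?_)
  ring

lemma star_unique (hM : (M : ℤ) = 2 ^ (N + 1) - 1) {G : X → Fin N → ℝ} {x : X}
    {z w : Fin N → ℤ} (hz : x ∈ Star G z) (hw : x ∈ Star G w) (h : col M z = col M w) :
    w = z := by
  have := diff_eq hM hz hw hz hz rfl h.symm
  funext i
  have h2 := congrFun this i
  simp only [sub_self] at h2
  exact sub_eq_zero.1 h2

open Classical in
/-- The vertex of colour `a` whose star contains `x`. -/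
noncomputable def ze (G : X → Fin N → ℝ) (a : ZMod M) (x : X) : Fin N → ℤ :=
  if h : ∃ z, col M z = a ∧ x ∈ Star G z then h.choose else 0

lemma ze_spec {G : X → Fin N → ℝ} {a : ZMod M} {x : X} (h : x ∈ O G a) :
    col M (ze G a x) = a ∧ x ∈ Star G (ze G a x) := by
  have h' : ∃ z, col M z = a ∧ x ∈ Star G z := h
  unfold ze
  rw [dif_pos h']
  exact h'.choose_spec

lemma ze_eq (hM : (M : ℤ) = 2 ^ (N + 1) - 1) {G : X → Fin N → ℝ} {a : ZMod M} {x : X}
    {z : Fin N → ℤ} (hz : col M z = a) (hx : x ∈ Star G z) : ze G a x = z := by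
  have h := ze_spec (M := M) (G := G) (a := a) (x := x) ⟨z, hz, hx⟩
  exact star_unique hM hx h.2 (hz.trans h.1.symm)

lemma ze_diff (hM : (M : ℤ) = 2 ^ (N + 1) - 1) {G : X → Fin N → ℝ} {a b : ZMod M} {x y : X}
    (hxa : x ∈ O G a) (hxb : x ∈ O G b) (hya : y ∈ O G a) (hyb : y ∈ O G b) (i : Fin N) :
    ze G b x i - ze G a x i = ze G b y i - ze G a y i := by
  have := diff_eq hM (ze_spec hxa).2 (ze_spec hxb).2 (ze_spec hya).2 (ze_spec hyb).2
    ((ze_spec hxa).1.trans (ze_spec hya).1.symm) ((ze_spec hxb).1.trans (ze_spec hyb).1.symm)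
  exact congrFun this i

end stars

/-! ### The main argument -/

/-- A continuous integer valued function on a connected space is constant. -/
lemma int_const {X : Type u} [TopologicalSpace X] [PreconnectedSpace X] {D : X → ℝ}
    (hD : Continuous D) (h : ∀ x, ∃ n : ℤ, D x = n) (x y : X) : D x = D y := by
  have hoc : (range D).OrdConnected := (isPreconnected_range hD).ordConnected
  have key : ∀ x y, ¬ D x < D y := by
    intro x y hlt
    obtain ⟨n, hn⟩ := h x
    obtain ⟨m, hm⟩ := h y
    rw [hn, hm] at hlt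
    have hnm : n < m := by exact_mod_cast hlt
    have hnm' : (n : ℝ) + 1 ≤ m := by exact_mod_cast hnm
    obtain ⟨w, hw⟩ := hoc.out (mem_range_self x) (mem_range_self y)
      (show (n : ℝ) + 1 / 2 ∈ Icc (D x) (D y) by
        rw [hn, hm]; constructor <;> linarith)
    obtain ⟨p, hp⟩ := h w
    rw [hp] at hw
    have h2 : (2 * p : ℝ) = 2 * n + 1 := by linarith
    have h3 : 2 * p = 2 * n + 1 := by exact_mod_cast h2
    omega
  exact le_antisymm (not_lt.1 (key y x)) (not_lt.1 (key x y))

theorem like_of_nlike {k : ℕ} {𝒦 : (Y : Type v) → TopologicalSpace Y → Prop}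
    (h𝒦 : ∀ (Y : Type v) (t : TopologicalSpace Y), 𝒦 Y t →
      @IsContinuum Y t ∧ @HasLogs Y t ∧ @DimLE k Y t)
    {X : Type u} [TopologicalSpace X] (hX : IsContinuum X)
    (hn : NLike (2 ^ (2 * k + 2) - 1) 𝒦 X) : Like 𝒦 X := by
  classical
  obtain ⟨hXc, hXk, hX2⟩ := hX
  intro 𝒰 h𝒰
  -- a finite subcover
  obtain ⟨T, hT𝒰, hTfin, hTcov⟩ : ∃ T ⊆ 𝒰, T.Finite ∧ ⋃₀ T = univ := by
    obtain ⟨T, hT, hTf, hTc⟩ := isCompact_univ.elim_finite_subcover_image (b := 𝒰) (c := id)
      h𝒰.1 (by rw [← h𝒰.2, sUnion_eq_biUnion]; rfl)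
    exact ⟨T, hT, hTf, univ_subset_iff.1 (by rw [sUnion_eq_biUnion]; exact hTc)⟩
  have : Fintype T := hTfin.fintype
  have hTo : ∀ i : T, IsOpen i.1 := fun i => h𝒰.1 _ (hT𝒰 i.2)
  have hTc : (⋃ i : T, i.1) = univ := by rw [← sUnion_eq_iUnion]; exact hTcov
  have hk2 : ∀ k : ℕ, k + 3 ≤ 2 ^ (2 * k + 2) := by
    intro k
    induction k with
    | zero => norm_num
    | succ m ih =>
      have : 2 ^ (2 * (m + 1) + 2) = 4 * 2 ^ (2 * m + 2) := by ring
      omega
  set M : ℕ := 2 ^ (2 * k + 2) - 1 with hMdef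
  have hMpos : 2 ≤ M := by have := hk2 k; omega
  have hMz : (M : ℤ) = 2 ^ (2 * k + 1 + 1) - 1 := by
    have h1 : M + 1 = 2 ^ (2 * k + 2) := by have := hk2 k; omega
    have h2 : ((M : ℤ) + 1) = 2 ^ (2 * k + 2) := by exact_mod_cast h1
    rw [show 2 * k + 1 + 1 = 2 * k + 2 by ring]
    linarith
  have : NeZero M := ⟨by omega⟩
  -- dimension of `X`
  have hdim : ∀ (J : Type u) [Fintype J], Fintype.card J = k + 2 → ∀ C : J → Set X,
      (∀ j, IsOpen (C j)) → (⋃ j, C j) = univ →
      ∃ V : J → Set X, (∀ j, IsOpen (V j)) ∧ (∀ j, V j ⊆ C j) ∧ (⋃ j, V j) = univ ∧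
        (⋂ j, V j) = ∅ := by
    intro J _ hJ C hC hCc
    have h1 : (range C).encard ≤ ((M : ℕ) : ℕ∞) := by
      rw [← image_univ]
      refine (encard_image_le _ _).trans ?_
      rw [encard_univ, ENat.card_eq_coe_fintype_card, hJ]
      have := hk2 k
      exact_mod_cast (show k + 2 ≤ M by omega)
    obtain ⟨Y, tY, hY, f, hfs, hf⟩ := hn (range C)
      ⟨by rintro _ ⟨j, rfl⟩; exact hC j, by rw [sUnion_range]; exact hCc⟩ h1
    exact shrink_of_dimLE (h𝒦 Y tY hY).2.2 hJ C hf
  obtain ⟨U', hU'o, hU'U, hU'c, hU'I⟩ := exists_shrink hdim (fun i : T => i.1) hTo hTc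
    (Finset.powersetCard (k + 2) Finset.univ) (fun I hI => (Finset.mem_powersetCard.1 hI).2)
  obtain ⟨g, hg, δ, hδ, hgU⟩ := exists_map U' hU'o hU'c (k := k) (fun I hI => hU'I I
    (Finset.mem_powersetCard.2 ⟨Finset.subset_univ _, hI⟩))
  -- the rescaled map
  let G : X → Fin (2 * k + 1) → ℝ := fun x i => 3 * g x i / δ
  have hG : Continuous G := by
    refine continuous_pi fun i => ?_
    exact ((continuous_const.mul ((continuous_apply i).comp hg)).div_const _)
  have hcard : (range (O (M := M) G)).encard ≤ ((M : ℕ) : ℕ∞) := by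
    rw [← image_univ]
    refine (encard_image_le _ _).trans ?_
    rw [encard_univ, ENat.card_eq_coe_fintype_card, ZMod.card]
  obtain ⟨Y, tY, hY, f, hfs, hfc, 𝒱, h𝒱, href⟩ := hn (range (O (M := M) G))
    ⟨by rintro _ ⟨a, rfl⟩; exact isOpen_O hG a, by rw [sUnion_range]; exact iUnion_O G⟩ hcard
  refine ⟨Y, tY, hY, f, hfs, hfc, ?_⟩
  obtain ⟨⟨hYc, hYk, hY2⟩, hYlog, _⟩ := h𝒦 Y tY hY
  -- a cover of `Y` indexed by the colours
  let Q : ZMod M → Set Y := fun a => ⋃₀ {V | V ∈ 𝒱 ∧ f ⁻¹' V ⊆ O G a}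
  have hQo : ∀ a, IsOpen (Q a) := fun a => isOpen_sUnion fun V hV => h𝒱.1 V hV.1
  have hQc : (⋃ a, Q a) = univ := by
    rw [eq_univ_iff_forall]
    intro y
    have : y ∈ ⋃₀ 𝒱 := by rw [h𝒱.2]; exact mem_univ _
    obtain ⟨V, hV, hy⟩ := this
    obtain ⟨_, ⟨a, rfl⟩, ha⟩ := href _ (mem_image_of_mem _ hV)
    rw [mem_iUnion]
    exact ⟨a, V, ⟨hV, ha⟩, hy⟩
  have hQO : ∀ a x, f x ∈ Q a → x ∈ O G a := by
    rintro a x ⟨V, ⟨_, hV⟩, hx⟩
    exact hV hx
  obtain ⟨ψ, hψ⟩ := PartitionOfUnity.exists_isSubordinate (isClosed_univ (X := Y)) Q hQo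
    (by rw [hQc])
  have hψs : ∀ a x, ψ a (f x) ≠ 0 → x ∈ O G a := fun a x hx =>
    hQO a x (hψ a (subset_tsupport _ hx))
  have hψsum : ∀ y, ∑ a, ψ a y = 1 := by
    intro y
    rw [← finsum_eq_sum_of_fintype]
    exact ψ.sum_eq_one (mem_univ y)
  have hψne : ∀ y, ∃ a, ψ a y ≠ 0 := by
    intro y
    by_contra hcon
    push Not at hcon
    have := hψsum y
    rw [Finset.sum_eq_zero (fun a _ => hcon a)] at this
    exact zero_ne_one this
  -- the averaged vertex
  let Z : Fin (2 * k + 1) → X → ℝ := fun j x => ∑ a, ψ a (f x) * (ze G a x j : ℝ)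
  have hZc : ∀ j, Continuous (Z j) := by
    intro j
    refine continuous_finsetSum _ fun a _ => ?_
    refine continuous_of_tsupport fun x hx => ?_
    have h1 : x ∈ tsupport fun x => ψ a (f x) := tsupport_mul_subset_left hx
    have h2 : f x ∈ tsupport (ψ a) := tsupport_comp_subset_preimage (ψ a) hfc h1
    have h3 : x ∈ O G a := hQO a x (hψ a h2)
    obtain ⟨h4, h5⟩ := ze_spec h3
    have h6 : (fun x' => (ze G a x' j : ℝ)) =ᶠ[𝓝 x] fun _ => (ze G a x j : ℝ) := by
      filter_upwards [(isOpen_star hG _).mem_nhds h5] with x' hx'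
      rw [ze_eq hMz h4 hx']
    exact ((ψ a).continuous.comp hfc).continuousAt.mul (continuousAt_const.congr h6.symm)
  have hZG : ∀ j x, |Z j x - G x j| ≤ 1 := by
    intro j x
    have h1 : Z j x - G x j = ∑ a, ψ a (f x) * ((ze G a x j : ℝ) - G x j) := by
      simp only [Z, mul_sub, Finset.sum_sub_distrib]
      rw [← Finset.sum_mul, hψsum, one_mul]
    rw [h1]
    refine (Finset.abs_sum_le_sum_abs _ _).trans ?_
    rw [← hψsum (f x)]
    refine Finset.sum_le_sum fun a _ => ?_
    rw [abs_mul, abs_of_nonneg (ψ.nonneg a _)]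
    by_cases ha : ψ a (f x) = 0
    · rw [ha, zero_mul]
    · have h2 := ((ze_spec (hψs a x ha)).2.1 j).le
      rw [abs_sub_comm] at h2
      exact mul_le_of_le_one_right (ψ.nonneg a _) h2
  have hZf : ∀ j x x', f x = f x' → ∃ m : ℤ, Z j x = Z j x' + m := by
    intro j x x' hxx
    obtain ⟨a0, ha0⟩ := hψne (f x)
    have ha0' : ψ a0 (f x') ≠ 0 := by rw [← hxx]; exact ha0
    refine ⟨ze G a0 x j - ze G a0 x' j, ?_⟩
    have h1 : Z j x - Z j x' = ∑ a, ψ a (f x) * ((ze G a x j : ℝ) - ze G a x' j) := by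
      simp only [Z, mul_sub, Finset.sum_sub_distrib]
      rw [hxx]
    have h2 : Z j x - Z j x' = ((ze G a0 x j - ze G a0 x' j : ℤ) : ℝ) := by
      rw [h1, ← one_mul (((ze G a0 x j - ze G a0 x' j : ℤ) : ℝ)), ← hψsum (f x), Finset.sum_mul]
      refine Finset.sum_congr rfl fun a _ => ?_
      by_cases ha : ψ a (f x) = 0
      · rw [ha, zero_mul, zero_mul]
      · have ha' : ψ a (f x') ≠ 0 := by rw [← hxx]; exact ha
        have h3 := ze_diff hMz (hψs a0 x ha0) (hψs a x ha) (hψs a0 x' ha0') (hψs a x' ha') j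
        have h4 : ze G a x j - ze G a x' j = ze G a0 x j - ze G a0 x' j := by omega
        rw [← h4]
        push_cast
        ring
    linarith
  -- the lift
  have hquot : IsQuotientMap f := hfc.isClosedMap.isQuotientMap hfc hfs
  have hlift : ∀ j, ∃ θ : Y → ℝ, Continuous θ ∧ ∀ x, ∃ n : ℤ, Z j x - θ (f x) = n := by
    intro j
    let E : X → ℂ := fun x => Complex.exp ((Z j x : ℂ) * (2 * Real.pi * Complex.I))
    let e : Y → ℂ := fun y => E (Function.surjInv hfs y)
    have hEc : Continuous E := Complex.continuous_exp.comp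
      ((Complex.continuous_ofReal.comp (hZc j)).mul continuous_const)
    have heE : ∀ x, e (f x) = E x := by
      intro x
      obtain ⟨m, hm⟩ := hZf j (Function.surjInv hfs (f x)) x (Function.surjInv_eq hfs _)
      show Complex.exp _ = Complex.exp _
      rw [Complex.exp_eq_exp_iff_exists_int]
      refine ⟨m, ?_⟩
      rw [hm]
      push_cast
      ring
    have hec : Continuous e := by
      rw [hquot.continuous_iff]
      have : e ∘ f = E := funext heE
      rw [this]
      exact hEc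
    obtain ⟨l, hl, hle⟩ := hYlog e hec fun y => Complex.exp_ne_zero _
    refine ⟨fun y => (l y).im / (2 * Real.pi), (Complex.continuous_im.comp hl).div_const _, ?_⟩
    intro x
    have h1 : Complex.exp ((Z j x : ℂ) * (2 * Real.pi * Complex.I)) = Complex.exp (l (f x)) := by
      rw [hle, heE]
    rw [Complex.exp_eq_exp_iff_exists_int] at h1
    obtain ⟨n, hn⟩ := h1
    refine ⟨n, ?_⟩
    have h2 := congrArg Complex.im hn
    simp at h2
    have hpi := Real.pi_pos
    have h3 : (l (f x)).im = (Z j x - n) * (2 * Real.pi) := by linarith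
    show Z j x - (l (f x)).im / (2 * Real.pi) = n
    rw [h3]
    field_simp
    ring
  choose θ hθ hθn using hlift
  have : PreconnectedSpace X := hXc.toPreconnectedSpace
  have hclose : ∀ j x y, Z j x - Z j y = θ j (f x) - θ j (f y) := by
    intro j x y
    have h1 : Z j x - θ j (f x) = Z j y - θ j (f y) :=
      int_const (D := fun x => Z j x - θ j (f x)) ((hZc j).sub ((hθ j).comp hfc)) (hθn j) x y
    linarith
  refine ⟨range fun y0 : Y => {y : Y | ∀ j, |θ j y - θ j y0| < 1}, ⟨?_, ?_⟩, ?_⟩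
  · rintro _ ⟨y0, rfl⟩
    have : {y : Y | ∀ j, |θ j y - θ j y0| < 1} = ⋂ j, {y | |θ j y - θ j y0| < 1} := by
      ext y; simp
    show IsOpen {y : Y | ∀ j, |θ j y - θ j y0| < 1}
    rw [this]
    exact isOpen_iInter_of_finite fun j =>
      isOpen_lt ((hθ j).sub continuous_const).abs continuous_const
  · rw [eq_univ_iff_forall]
    intro y
    refine ⟨_, mem_range_self y, ?_⟩
    intro j
    rw [sub_self, abs_zero]
    exact one_pos
  · rintro _ ⟨_, ⟨y0, rfl⟩, rfl⟩
    obtain ⟨x0, rfl⟩ := hfs y0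
    obtain ⟨i, hi⟩ := hgU x0
    refine ⟨i.1, hT𝒰 i.2, ?_⟩
    intro x hx
    apply hU'U i
    apply hi
    rw [dist_pi_lt_iff hδ]
    intro j
    have h1 := abs_le.1 (hZG j x)
    have h1' := abs_le.1 (hZG j x0)
    have h2 : |θ j (f x) - θ j (f x0)| < 1 := hx j
    rw [← hclose j x x0] at h2
    have h2' := abs_lt.1 h2
    have h3 : |G x j - G x0 j| < 3 := by
      rw [abs_lt]
      constructor <;> linarith [h1.1, h1.2, h1'.1, h1'.2, h2'.1, h2'.2]
    have h5 : G x j - G x0 j = 3 * ((g x j - g x0 j) / δ) := by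
      simp only [G]
      ring
    rw [h5, abs_mul, abs_of_pos (by norm_num : (0 : ℝ) < 3)] at h3
    have h6 : |(g x j - g x0 j) / δ| < 1 := by linarith
    rw [abs_div, abs_of_pos hδ, div_lt_one hδ] at h6
    rw [Real.dist_eq]
    exact h6

/-- Contractible spaces have logarithms. -/
lemma hasLogs_of_contractible (Y : Type v) [TopologicalSpace Y] [ContractibleSpace Y] :
    HasLogs Y := fun z hz hz0 => complex_lift z hz hz0

/-- Simply connected, locally path connected spaces have logarithms. -/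
lemma hasLogs_of_simplyConnected (Y : Type v) [TopologicalSpace Y] [SimplyConnectedSpace Y]
    [LocallyPathConnectedSpace Y] : HasLogs Y := by
  intro z hz hz0
  obtain ⟨y0⟩ : Nonempty Y := inferInstance
  let f : C(Y, {w : ℂ // w ≠ 0}) := ⟨fun y => ⟨z y, hz0 y⟩, hz.subtype_mk _⟩
  obtain ⟨F, hF, -⟩ := Complex.isCoveringMap_exp.existsUnique_continuousMap_lifts f
    (a₀ := y0) (e₀ := Complex.log (z y0)) (by
      apply Subtype.ext
      exact Complex.exp_log (hz0 y0))
  refine ⟨F, F.continuous, fun y => ?_⟩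
  exact congrArg Subtype.val (congrFun hF.2 y)

/-- **Finite-cover characterisation of `𝒦`-like continua.** For every `k`, the number
`n = 2 ^ (2k+2) - 1` has the following property: if `𝒦` is any class of continua of dimension at
most `k` on which all maps to the punctured plane have logarithms, then a continuum `X` is
`𝒦`-like if and only if it is `n`-`𝒦`-like. Contractible spaces and simply connected, locally path
connected spaces satisfy the hypothesis on logarithms. -/
theorem result (k : ℕ) :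
    (∀ 𝒦 : (Y : Type v) → TopologicalSpace Y → Prop,
      (∀ (Y : Type v) (t : TopologicalSpace Y), 𝒦 Y t →
        @IsContinuum Y t ∧ @HasLogs Y t ∧ @DimLE k Y t) →
      ∀ (X : Type u) [TopologicalSpace X], IsContinuum X →
        (Like 𝒦 X ↔ NLike (2 ^ (2 * k + 2) - 1) 𝒦 X)) ∧
    (∀ (Y : Type v) [TopologicalSpace Y], ContractibleSpace Y → HasLogs Y) ∧
    (∀ (Y : Type v) [TopologicalSpace Y], SimplyConnectedSpace Y → LocallyPathConnectedSpace Y →
      HasLogs Y) := by
  refine ⟨fun 𝒦 h𝒦 X _ hX => ⟨fun h 𝒰 h𝒰 _ => h 𝒰 h𝒰, fun h => like_of_nlike h𝒦 hX h⟩,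
    fun Y _ _ => hasLogs_of_contractible Y, fun Y _ _ _ => hasLogs_of_simplyConnected Y⟩

end Pool.Agent.Results.MP_05361d_gt.TrivialFirstCohomology
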